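import Mathlib

/-!
# Circles in Morse boundaries of random right-angled Coxeter groups: definitions
-/

namespace Pool.Agent.Helper93.RC

open Filter Topology

/-! ### Graphs, geodesic rays, Morse rays, Morse boundary -/

section Morse

variable {X : Type*}

/-- A geodesic ray (as a sequence of vertices) issuing from the vertex `e`. -/
def IsGeodRay (G : SimpleGraph X) (e : X) (γ : ℕ → X) : Prop :=
  γ 0 = e ∧ ∀ i j : ℕ, (G.dist (γ i) (γ j) : ℤ) = |(i : ℤ) - (j : ℤ)|

/-- `q 0, …, q n` is a `(K, C)`-quasi-geodesic. -/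
def IsQuasiGeod (G : SimpleGraph X) (K C : ℝ) (n : ℕ) (q : ℕ → X) : Prop :=
  ∀ i j : ℕ, i ≤ n → j ≤ n →
    |(i : ℝ) - (j : ℝ)| / K - C ≤ (G.dist (q i) (q j) : ℝ) ∧
      (G.dist (q i) (q j) : ℝ) ≤ K * |(i : ℝ) - (j : ℝ)| + C

/-- The ray `γ` is `N`-Morse: every `(K, C)`-quasi-geodesic with end points on `γ` stays
in the `N K C`-neighbourhood of `γ`. -/
def IsMorse (G : SimpleGraph X) (N : ℝ → ℝ → ℝ) (γ : ℕ → X) : Prop :=
  ∀ K C : ℝ, 1 ≤ K → 0 ≤ C → ∀ (n : ℕ) (q : ℕ → X), IsQuasiGeod G K C n q →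
    (∃ a, q 0 = γ a) → (∃ b, q n = γ b) →
      ∀ i ≤ n, ∃ t, (G.dist (q i) (γ t) : ℝ) ≤ N K C

/-- Morse geodesic rays from `e`. -/
def MRay (G : SimpleGraph X) (e : X) : Type _ :=
  {γ : ℕ → X // IsGeodRay G e γ ∧ ∃ N : ℝ → ℝ → ℝ, IsMorse G N γ}

/-- Two rays are asymptotic if they stay at bounded distance. -/
def Asym (G : SimpleGraph X) (γ γ' : ℕ → X) : Prop :=
  ∃ D : ℕ, ∀ t, G.dist (γ t) (γ' t) ≤ D ∧ G.Reachable (γ t) (γ' t)

/-- the setoid of asymptotic Morse rays -/
def asymSetoid (G : SimpleGraph X) (e : X) : Setoid (MRay G e) where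
  r γ γ' := Asym G γ.1 γ'.1
  iseqv :=
    { refl := fun γ => ⟨0, fun t => ⟨by simp, SimpleGraph.Reachable.refl _⟩⟩
      symm := by
        rintro γ γ' ⟨D, h⟩
        exact ⟨D, fun t => ⟨by rw [SimpleGraph.dist_comm]; exact (h t).1, (h t).2.symm⟩⟩
      trans := by
        rintro γ γ' γ'' ⟨D, h⟩ ⟨D', h'⟩
        refine ⟨D + D', fun t => ⟨?_, (h t).2.trans (h' t).2⟩⟩
        obtain ⟨p, hp⟩ := (h t).2.exists_walk_length_eq_dist
        obtain ⟨p', hp'⟩ := (h' t).2.exists_walk_length_eq_dist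
        have := SimpleGraph.dist_le (p.append p')
        rw [SimpleGraph.Walk.length_append] at this
        have h1 := (h t).1
        have h2 := (h' t).1
        omega }

/-- The Morse boundary (as a set): asymptotic classes of Morse geodesic rays from `e`. -/
def MorseBdry (G : SimpleGraph X) (e : X) : Type _ := Quotient (asymSetoid G e)

/-- The stratum of the `N`-Morse geodesic rays from `e`. -/
def Stratum (G : SimpleGraph X) (e : X) (N : ℝ → ℝ → ℝ) : Type _ :=
  {γ : ℕ → X // IsGeodRay G e γ ∧ IsMorse G N γ}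

/-- Topology of pointwise convergence (= compact-open topology) on a stratum. -/
instance (G : SimpleGraph X) (e : X) (N : ℝ → ℝ → ℝ) : TopologicalSpace (Stratum G e N) :=
  TopologicalSpace.induced (fun γ : Stratum G e N => γ.1)
    (@Pi.topologicalSpace ℕ (fun _ => X) (fun _ => ⊥))

/-- The map from a stratum to the Morse boundary. -/
def Stratum.toBdry {G : SimpleGraph X} {e : X} {N : ℝ → ℝ → ℝ} (γ : Stratum G e N) :
    MorseBdry G e :=
  Quotient.mk (asymSetoid G e) ⟨γ.1, γ.2.1, N, γ.2.2⟩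

/-- The direct limit topology over all Morse gauges: a set is open iff its preimage in every
stratum is open. -/
instance (G : SimpleGraph X) (e : X) : TopologicalSpace (MorseBdry G e) :=
  ⨆ N : ℝ → ℝ → ℝ, TopologicalSpace.coinduced (fun γ : Stratum G e N => γ.toBdry) inferInstance

end Morse

/-! ### Right-angled Coxeter groups -/

section RACG

variable {V : Type*}

/-- The defining relators: `v ^ 2` for every vertex and `[u, v]` for every edge. -/
def racgRels (Γ : SimpleGraph V) : Set (FreeGroup V) :=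
  {r | ∃ v, r = FreeGroup.of v * FreeGroup.of v} ∪
    {r | ∃ u v, Γ.Adj u v ∧
      r = FreeGroup.of u * FreeGroup.of v * (FreeGroup.of u)⁻¹ * (FreeGroup.of v)⁻¹}

/-- The right-angled Coxeter group with defining graph `Γ`. -/
abbrev RACG (Γ : SimpleGraph V) : Type _ := PresentedGroup (racgRels Γ)

/-- The standard generators. -/
def gen (Γ : SimpleGraph V) (v : V) : RACG Γ := PresentedGroup.of v

/-- The Cayley graph of a group with respect to a generating set `S`. -/
def cayley {H : Type*} [Group H] (S : Set H) : SimpleGraph H :=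
  SimpleGraph.fromRel fun g h => ∃ s ∈ S, h = g * s

/-- The Cayley graph of the right-angled Coxeter group with respect to the vertices. -/
def cay (Γ : SimpleGraph V) : SimpleGraph (RACG Γ) := cayley (Set.range (gen Γ))

/-- The Morse boundary of the right-angled Coxeter group contains a circle. -/
def HasCircle (Γ : SimpleGraph V) : Prop :=
  ∃ f : Circle → MorseBdry (cay Γ) 1, IsEmbedding f

end RACG

/-! ### The Erdős–Rényi random graph -/

open scoped Classical in
/-- The probability that the random graph `Γ(n, p)` has the property `A`: every graph on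
`Fin n` with `k` edges has weight `p ^ k * (1 - p) ^ (n.choose 2 - k)`. -/
noncomputable def gnp (n : ℕ) (p : ℝ) (A : Set (SimpleGraph (Fin n))) : ℝ :=
  ∑ G : SimpleGraph (Fin n), if G ∈ A then
    p ^ G.edgeSet.ncard * (1 - p) ^ (n.choose 2 - G.edgeSet.ncard) else 0

/-! ### Good configurations -/

/-- `i` and `j` are distinct and not cyclically adjacent. -/
def Far {m : ℕ} (i j : ZMod m) : Prop := j ≠ i ∧ j ≠ i + 1 ∧ i ≠ j + 1

/-- Cliques `B i` (`i : ZMod m`) arranged along an `m`-cycle, `m ≥ 5`. -/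
structure GoodConf {V : Type*} (Γ : SimpleGraph V) (m : ℕ) (B : ZMod m → Finset V) : Prop where
  m5 : 5 ≤ m
  ne : ∀ i, (B i).Nonempty
  disj : ∀ i j, i ≠ j → ∀ x, x ∈ B i → x ∉ B j
  clique : ∀ i, ∀ x ∈ B i, ∀ y ∈ B i, x ≠ y → Γ.Adj x y
  next : ∀ i, ∀ x ∈ B i, ∀ y ∈ B (i + 1), Γ.Adj x y
  mix : ∀ i j l, Far i j → Far j l → ∀ x ∈ B i, ∀ y ∈ B l, ∃ w ∈ B j, ¬ Γ.Adj x w ∧ ¬ Γ.Adj w y
  nbhd : ∀ i j, Far i j → ∀ z z', (∀ x ∈ B i, Γ.Adj z x) → (∀ x ∈ B j, Γ.Adj z x) →
    (∀ x ∈ B i, Γ.Adj z' x) → (∀ x ∈ B j, Γ.Adj z' x) → z ≠ z' → Γ.Adj z z'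

/-- `Γ` contains a good configuration -/
def HasConf {V : Type*} (Γ : SimpleGraph V) : Prop := ∃ m B, GoodConf Γ m B

end Pool.Agent.Helper93.RC
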