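import Pool.Agent.Helper93.RC.Quad

/-!
# Words of levels, expansions, reducedness
-/

namespace Pool.Agent.Helper93.RC

set_option linter.unusedVariables false

open scoped Classical

/-! ### list lemmas -/

theorem flatMap_split {α β : Type*} (f : α → List β) (w : List α) (l : List β) (x : β)
    (r : List β) (h : w.flatMap f = l ++ x :: r) :
    ∃ w1 a w2 p s, w = w1 ++ a :: w2 ∧ f a = p ++ x :: s ∧ l = w1.flatMap f ++ p ∧
      r = s ++ w2.flatMap f := by
  induction w generalizing l with
  | nil => simp at h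
  | cons a w ih =>
    rw [List.flatMap_cons, List.append_eq_append_iff] at h
    rcases h with ⟨l', h1, h2⟩ | ⟨r', h1, h2⟩
    · -- `l = f a ++ l'`
      obtain ⟨w1, b, w2, p, s, e1, e2, e3, e4⟩ := ih l' h2
      refine ⟨a :: w1, b, w2, p, s, by rw [e1]; rfl, e2, ?_, e4⟩
      rw [h1, e3, List.flatMap_cons, List.append_assoc]
    · -- `f a = l ++ r'`
      cases r' with
      | nil =>
        rw [List.nil_append] at h2
        obtain ⟨w1, b, w2, p, s, e1, e2, e3, e4⟩ := ih [] (by rw [← h2]; rfl)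
        refine ⟨a :: w1, b, w2, p, s, by rw [e1]; rfl, e2, ?_, e4⟩
        rw [List.append_nil] at h1
        rw [List.flatMap_cons, List.append_assoc, ← e3, List.append_nil, h1]
      | cons y r' =>
        rw [List.cons_append] at h2
        obtain ⟨rfl, h3⟩ := List.cons.inj h2
        exact ⟨[], a, w, l, r', rfl, h1, rfl, h3⟩

/-- splitting at two occurrences of the same letter -/
theorem flatMap_split2 {α β : Type*} (f : α → List β) (hf : ∀ a, (f a).Nodup) (w : List α)
    (l1 : List β) (x : β) (l2 l3 : List β) (h : w.flatMap f = l1 ++ x :: (l2 ++ x :: l3)) :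
    ∃ w1 a w2 b w3, w = w1 ++ a :: (w2 ++ b :: w3) ∧ x ∈ f a ∧ x ∈ f b ∧
      ∀ c ∈ w2, ∀ y ∈ f c, y ∈ l2 := by
  obtain ⟨w1, a, w2, p, s, e1, e2, e3, e4⟩ := flatMap_split f w l1 x _ h
  have hxs : x ∉ s := by
    have := hf a
    rw [e2] at this
    exact (List.nodup_cons.1 (List.Nodup.of_append_right this)).1
  rw [List.append_eq_append_iff] at e4
  rcases e4 with ⟨l', h1, h2⟩ | ⟨r', h1, h2⟩
  · -- `s = l2 ++ l'`, `x :: l3 = l' ++ w2.flatMap f`
    cases l' with
    | nil =>
      rw [List.nil_append] at h2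
      obtain ⟨v1, b, v2, p', s', e1', e2', e3', e4'⟩ := flatMap_split f w2 [] x l3 (by rw [← h2]; rfl)
      refine ⟨w1, a, v1, b, v2, by rw [e1, e1'], by rw [e2]; simp, by rw [e2']; simp, ?_⟩
      intro c hc y hy
      exfalso
      have : y ∈ v1.flatMap f ++ p' := List.mem_append_left _ (List.mem_flatMap.2 ⟨c, hc, hy⟩)
      rw [← e3'] at this
      exact List.not_mem_nil this
    | cons z l' =>
      exfalso
      rw [List.cons_append] at h2
      obtain ⟨rfl, _⟩ := List.cons.inj h2
      apply hxs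
      rw [h1]
      simp
  · -- `l2 = s ++ r'`, `w2.flatMap f = r' ++ x :: l3`
    obtain ⟨v1, b, v2, p', s', e1', e2', e3', e4'⟩ := flatMap_split f w2 r' x l3 h2
    refine ⟨w1, a, v1, b, v2, by rw [e1, e1'], by rw [e2]; simp, by rw [e2']; simp, ?_⟩
    intro c hc y hy
    rw [h1, e3']
    exact List.mem_append_right _ (List.mem_append_left _ (List.mem_flatMap.2 ⟨c, hc, hy⟩))

variable {V : Type*} {Γ : SimpleGraph V}

/-- split form of the criterion -/
theorem not_red_split {l : List V} (h : ¬ Red Γ l) :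
    ∃ l1 x l2 l3, l = l1 ++ x :: (l2 ++ x :: l3) ∧ ∀ c ∈ l2, Γ.Adj x c := by
  obtain ⟨a, b, ha, hb, hab, e, hadj⟩ := not_red_letters h
  refine ⟨l.take a, l[a], (l.drop (a + 1)).take (b - (a + 1)), l.drop (b + 1), ?_, ?_⟩
  · have h1 : l = l.take a ++ l[a] :: l.drop (a + 1) := by
      rw [← List.drop_eq_getElem_cons ha, List.take_append_drop]
    have h2 : l.drop (a + 1) = (l.drop (a + 1)).take (b - (a + 1)) ++ l[a] :: l.drop (b + 1) := by
      rw [e, ← List.drop_eq_getElem_cons hb]
      conv_lhs => rw [← List.take_append_drop (b - (a + 1)) (l.drop (a + 1))]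
      rw [List.drop_drop]
      congr 2
      omega
    rw [← h2]
    exact h1
  · intro c hc
    obtain ⟨j, hj, rfl⟩ := List.getElem_of_mem hc
    rw [List.getElem_take, List.getElem_drop]
    rw [List.length_take, List.length_drop] at hj
    exact hadj _ _ (by omega) (by omega)

theorem Red.not_split {l1 l2 l3 : List V} {x : V} (h : Red Γ (l1 ++ x :: (l2 ++ x :: l3)))
    (hadj : ∀ c ∈ l2, Γ.Adj x c) : False := by
  have e : wp Γ (l1 ++ (l2 ++ l3)) = wp Γ (l1 ++ x :: (l2 ++ x :: l3)) := by
    rw [wp_append, wp_append, wp_append, wp_cons, wp_append, wp_cons]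
    have hc := gen_comm_wp (Γ := Γ) (u := x) (l := l2) (fun c hc => Or.inl (hadj c hc))
    calc wp Γ l1 * (wp Γ l2 * wp Γ l3) = wp Γ l1 * ((gen Γ x * gen Γ x) * wp Γ l2 * wp Γ l3) := by
          rw [gen_sq, one_mul]
      _ = wp Γ l1 * (gen Γ x * (gen Γ x * wp Γ l2) * wp Γ l3) := by group
      _ = wp Γ l1 * (gen Γ x * (wp Γ l2 * gen Γ x) * wp Γ l3) := by rw [hc]
      _ = _ := by group
  have := h _ e
  simp only [List.length_append, List.length_cons] at this
  omega

/-! ### levels -/

section Levels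

variable {m : ℕ}

theorem Far.symm {i j : ZMod m} (h : Far i j) : Far j i := ⟨h.1.symm, h.2.2, h.2.1⟩

theorem Far.ne {i j : ZMod m} (h : Far i j) : i ≠ j := h.1.symm

theorem cyc_adj {i j : ZMod m} : (cyc m).Adj i j ↔ i ≠ j ∧ (j = i + 1 ∨ i = j + 1) := by
  unfold cyc
  rw [SimpleGraph.fromRel_adj]

theorem far_iff {i j : ZMod m} : Far i j ↔ i ≠ j ∧ ¬ (cyc m).Adj i j := by
  rw [cyc_adj]
  unfold Far
  constructor
  · rintro ⟨h1, h2, h3⟩
    exact ⟨h1.symm, fun h => by rcases h.2 with h | h <;> contradiction⟩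
  · rintro ⟨h1, h2⟩
    refine ⟨h1.symm, fun h => h2 ⟨h1, Or.inl h⟩, fun h => h2 ⟨h1, Or.inr h⟩⟩

/-- the letters of a level -/
def lw (a : Lv m) : List (ZMod m) :=
  match a.δ with
  | none => [a.z]
  | some false => [a.z, a.z - 1]
  | some true => [a.z, a.z + 1]

theorem mem_lw {a : Lv m} {i : ZMod m} : i ∈ lw a ↔ a.Mem i := by
  obtain ⟨z, δ⟩ := a
  unfold lw Lv.Mem
  rcases δ with _ | _ | _ <;> simp

theorem one_ne_zero' (hm : 5 ≤ m) : (1 : ZMod m) ≠ 0 := by
  have : Fact (1 < m) := ⟨by omega⟩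
  exact one_ne_zero

theorem lw_nodup (hm : 5 ≤ m) (a : Lv m) : (lw a).Nodup := by
  obtain ⟨z, δ⟩ := a
  have h1 := one_ne_zero' hm
  unfold lw
  rcases δ with _ | _ | _
  · simp
  · simp only [List.nodup_cons, List.mem_singleton, List.not_mem_nil, not_false_eq_true,
      List.nodup_nil, and_self, and_true]
    intro h
    apply h1
    have h2 : z - (z - 1) = 0 := sub_eq_zero.2 h
    rwa [sub_sub_cancel] at h2
  · simp [h1]

/-- letters of the same level are equal or adjacent -/
theorem Lv.mem_adj (hm : 5 ≤ m) {a : Lv m} {i j : ZMod m} (hi : a.Mem i) (hj : a.Mem j) :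
    ¬ Far i j := by
  obtain ⟨z, δ⟩ := a
  unfold Lv.Mem at hi hj
  unfold Far
  rintro ⟨h1, h2, h3⟩
  simp only at hi hj
  rcases hi with rfl | ⟨hδ, rfl⟩ | ⟨hδ, rfl⟩ <;> rcases hj with rfl | ⟨hδ', rfl⟩ | ⟨hδ', rfl⟩
  · exact h1 rfl
  · exact h3 (by ring)
  · exact h2 rfl
  · exact h2 (by ring)
  · exact h1 rfl
  · rw [hδ] at hδ'; cases hδ'
  · exact h3 rfl
  · rw [hδ] at hδ'; cases hδ'
  · exact h1 rfl

/-- the word of a chain of levels is reduced in the Coxeter group of the cycle -/
theorem red_levels (hm : 5 ≤ m) (L : List (Lv m)) (hL : L.IsChain Ok) :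
    Red (cyc m) (L.flatMap lw) := by
  by_contra hcon
  obtain ⟨l1, x, l2, l3, e, hadj⟩ := not_red_split hcon
  obtain ⟨w1, a, w2, b, w3, e1, ha, hb, hmid⟩ := flatMap_split2 lw (lw_nodup hm) L l1 x l2 l3 e
  rw [mem_lw] at ha hb
  rw [e1] at hL
  have h2 : (a :: (w2 ++ b :: w3)).IsChain Ok := (List.isChain_append.1 hL).2.1
  -- the level before `b`
  rcases List.eq_nil_or_concat w2 with rfl | ⟨w2', c, rfl⟩
  · have h3 : Ok a b := by
      rw [List.nil_append, List.isChain_cons_cons] at h2
      exact h2.1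
    obtain ⟨j, hj, hfar⟩ := h3.2 x hb
    exact Lv.mem_adj hm hj ha hfar
  · have h3 : Ok c b := by
      have e2 : a :: ((w2' ++ [c]) ++ b :: w3) = (a :: w2') ++ (c :: (b :: w3)) := by simp
      rw [List.concat_eq_append] at h2
      rw [e2] at h2
      have h4 := (List.isChain_append.1 h2).2.1
      rw [List.isChain_cons_cons] at h4
      exact h4.1
    obtain ⟨j, hj, hfar⟩ := h3.2 x hb
    have h5 := hmid c (by simp) j (mem_lw.2 hj)
    exact (far_iff.1 hfar).2 (hadj j h5).symm

end Levels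

/-! ### expansion -/

section Expand

variable {m : ℕ} {B : ZMod m → Finset V}

/-- expansion of a word in the cycle group -/
noncomputable def expw (B : ZMod m → Finset V) (w : List (ZMod m)) : List V :=
  w.flatMap fun i => (B i).toList

theorem expw_append (w w' : List (ZMod m)) : expw B (w ++ w') = expw B w ++ expw B w' := by
  simp [expw]

/-- letters of a block adjacent or equal to `x ∈ B i` -/
theorem GoodConf.adj_of_cyc (hg : GoodConf Γ m B) {i j : ZMod m} (h : (cyc m).Adj i j ∨ j = i)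
    {x y : V} (hx : x ∈ B i) (hy : y ∈ B j) : Γ.Adj x y ∨ y = x := by
  rcases h with h | rfl
  · rw [cyc_adj] at h
    rcases h.2 with rfl | rfl
    · exact Or.inl (hg.next i x hx y hy)
    · exact Or.inl (hg.next j y hy x hx).symm
  · by_cases hxy : x = y
    · exact Or.inr hxy.symm
    · exact Or.inl (hg.clique j x hx y hy hxy)

/-- if `x ∈ B i` is adjacent or equal to all elements of `B j` then `i`, `j` are not far -/
theorem GoodConf.not_far (hg : GoodConf Γ m B) {i j : ZMod m} {x : V} (hx : x ∈ B i)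
    (h : ∀ y ∈ B j, Γ.Adj x y ∨ y = x) : ¬ Far i j := by
  intro hf
  obtain ⟨w, hw, h1, _⟩ := hg.mix i j i hf hf.symm x hx x hx
  rcases h w hw with h2 | rfl
  · exact h1 h2
  · exact hg.disj i j hf.ne w hx hw

theorem GoodConf.red_expw (hg : GoodConf Γ m B) {w : List (ZMod m)} (hw : Red (cyc m) w) :
    Red Γ (expw B w) := by
  by_contra hcon
  obtain ⟨l1, x, l2, l3, e, hadj⟩ := not_red_split hcon
  obtain ⟨w1, i, w2, j, w3, e1, hi, hj, hmid⟩ :=
    flatMap_split2 (fun i => (B i).toList) (fun i => (B i).nodup_toList) w l1 x l2 l3 e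
  rw [Finset.mem_toList] at hi hj
  have hij : i = j := by
    by_contra hne
    exact hg.disj i j hne x hi hj
  subst hij
  rw [e1] at hw
  refine hw.not_split ?_
  intro c hc
  have h1 : ∀ y ∈ B c, Γ.Adj x y := fun y hy => hadj y (hmid c hc y (Finset.mem_toList.2 hy))
  have h2 : i ≠ c := by
    rintro rfl
    exact (h1 x hi).ne rfl
  by_contra h3
  exact hg.not_far hi (fun y hy => Or.inl (h1 y hy)) (far_iff.2 ⟨h2, h3⟩)

/-- product over a block -/
noncomputable def bl (Γ : SimpleGraph V) (B : ZMod m → Finset V) (i : ZMod m) : RACG Γ :=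
  wp Γ (B i).toList

theorem wp_comm_wp {l l' : List V} (h : ∀ c ∈ l, ∀ c' ∈ l', Γ.Adj c c' ∨ c' = c) :
    wp Γ l * wp Γ l' = wp Γ l' * wp Γ l := by
  induction l with
  | nil => simp
  | cons c l ih =>
    rw [wp_cons, mul_assoc, ih (fun d hd => h d (by simp [hd])), ← mul_assoc,
      gen_comm_wp (h c (by simp)), mul_assoc]

theorem wp_sq {l : List V} (h : ∀ c ∈ l, ∀ c' ∈ l, Γ.Adj c c' ∨ c' = c) :
    wp Γ l * wp Γ l = 1 := by
  induction l with
  | nil => simp
  | cons c l ih =>
    rw [wp_cons]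
    have h1 : gen Γ c * wp Γ l = wp Γ l * gen Γ c :=
      gen_comm_wp (fun c' hc' => h c (by simp) c' (by simp [hc']))
    calc gen Γ c * wp Γ l * (gen Γ c * wp Γ l) = wp Γ l * gen Γ c * (gen Γ c * wp Γ l) := by rw [h1]
      _ = wp Γ l * (gen Γ c * gen Γ c) * wp Γ l := by group
      _ = wp Γ l * wp Γ l := by rw [gen_sq, mul_one]
      _ = 1 := ih (fun a ha b hb => h a (by simp [ha]) b (by simp [hb]))

theorem bl_sq (hg : GoodConf Γ m B) (i : ZMod m) : bl Γ B i * bl Γ B i = 1 :=
  wp_sq (fun c hc c' hc' => hg.adj_of_cyc (Or.inr rfl) (Finset.mem_toList.1 hc)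
    (Finset.mem_toList.1 hc'))

theorem bl_comm (hg : GoodConf Γ m B) (i j : ZMod m) (h : (cyc m).Adj i j) :
    bl Γ B i * bl Γ B j = bl Γ B j * bl Γ B i :=
  wp_comm_wp (fun c hc c' hc' => hg.adj_of_cyc (Or.inl h) (Finset.mem_toList.1 hc)
    (Finset.mem_toList.1 hc'))

/-- the embedding of the Coxeter group of the cycle -/
noncomputable def phi (hg : GoodConf Γ m B) : RACG (cyc m) →* RACG Γ :=
  lift (bl Γ B) (bl_sq hg) (bl_comm hg)

theorem phi_gen (hg : GoodConf Γ m B) (i : ZMod m) : phi hg (gen (cyc m) i) = bl Γ B i :=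
  lift_gen _ _ _ i

theorem phi_wp (hg : GoodConf Γ m B) (w : List (ZMod m)) :
    phi hg (wp (cyc m) w) = wp Γ (expw B w) := by
  induction w with
  | nil => simp [expw]
  | cons i w ih =>
    rw [wp_cons, map_mul, phi_gen, ih]
    simp [expw, bl]

/-- a clique word: the inversions are exactly its letters -/
theorem N_block (hg : GoodConf Γ m B) (i : ZMod m) (t : RACG Γ) :
    N (bl Γ B i) t = 1 ↔ ∃ y ∈ B i, t = gen Γ y := by
  have key : ∀ l : List V, l.Nodup → (∀ c ∈ l, ∀ c' ∈ l, Γ.Adj c c' ∨ c' = c) →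
      (N (wp Γ l) t = 1 ↔ ∃ y ∈ l, t = gen Γ y) := by
    intro l
    induction l using List.reverseRecOn with
    | nil => simp
    | append_singleton l c ih =>
      intro hnd hadj
      have hnd' : l.Nodup := List.Nodup.of_append_left hnd
      have hcl : c ∉ l := by
        intro hc
        have := List.disjoint_of_nodup_append hnd hc
        exact this (by simp)
      have h0 := ih hnd' (fun a ha b hb => hadj a (by simp [ha]) b (by simp [hb]))
      have h1 : wp Γ l * gen Γ c * (wp Γ l)⁻¹ = gen Γ c := by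
        rw [mul_inv_eq_iff_eq_mul]
        refine (gen_comm_wp (fun c' hc' => ?_)).symm
        rcases hadj c' (by simp [hc']) c (by simp) with h | h
        · exact Or.inl h.symm
        · exact Or.inr h.symm
      rw [wp_append, wp_cons, wp_nil, mul_one, N_mul_gen, h1]
      by_cases ht : t = gen Γ c
      · subst ht
        rw [if_pos rfl]
        have h2 : N (wp Γ l) (gen Γ c) = 0 := by
          rcases z2_cases (N (wp Γ l) (gen Γ c)) with h | h
          · exact h
          · obtain ⟨y, hy, e⟩ := h0.1 h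
            rw [gen_injective e] at hcl
            exact absurd hy hcl
        rw [h2]
        constructor
        · intro _
          exact ⟨c, by simp, rfl⟩
        · intro _
          decide
      · rw [if_neg ht, add_zero, h0]
        constructor
        · rintro ⟨y, hy, rfl⟩
          exact ⟨y, by simp [hy], rfl⟩
        · rintro ⟨y, hy, rfl⟩
          rw [List.mem_append, List.mem_singleton] at hy
          rcases hy with hy | rfl
          · exact ⟨y, hy, rfl⟩
          · exact absurd rfl ht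
  have := key (B i).toList (B i).nodup_toList
    (fun c hc c' hc' => hg.adj_of_cyc (Or.inr rfl) (Finset.mem_toList.1 hc) (Finset.mem_toList.1 hc'))
  simpa [bl, Finset.mem_toList] using this

/-- transfer of commutation -/
theorem phi_comm_iff (hg : GoodConf Γ m B) (r : RACG (cyc m)) {i : ZMod m} {x : V} (hx : x ∈ B i) :
    gen Γ x * phi hg r = phi hg r * gen Γ x ↔ gen (cyc m) i * r = r * gen (cyc m) i := by
  obtain ⟨w, rfl, hw⟩ := exists_red r
  rw [phi_wp]
  constructor
  · intro h
    have h1 := centralizer_supp h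
    refine gen_comm_wp ?_
    intro c hc
    have h2 : ∀ y ∈ B c, Γ.Adj x y ∨ y = x := by
      intro y hy
      refine h1 y (((hg.red_expw hw).mem_supp y).2 ?_)
      exact List.mem_flatMap.2 ⟨c, hc, Finset.mem_toList.2 hy⟩
    have h3 := hg.not_far hx h2
    rw [far_iff] at h3
    by_cases hci : c = i
    · exact Or.inr hci
    · left
      by_contra hna
      exact h3 ⟨fun h => hci h.symm, hna⟩
  · intro h
    have h1 := centralizer_supp h
    refine gen_comm_wp ?_
    intro y hy
    obtain ⟨c, hc, hyc⟩ := List.mem_flatMap.1 hy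
    rw [Finset.mem_toList] at hyc
    have h2 := h1 c ((hw.mem_supp c).2 hc)
    exact hg.adj_of_cyc h2 hx hyc

/-- transfer of walls -/
theorem N_phi (hg : GoodConf Γ m B) (h g : RACG (cyc m)) {i : ZMod m} {x : V} (hx : x ∈ B i) :
    N (phi hg h) (phi hg g * gen Γ x * (phi hg g)⁻¹) = N h (g * gen (cyc m) i * g⁻¹) := by
  refine wp_induction (P := fun h => N (phi hg h) (phi hg g * gen Γ x * (phi hg g)⁻¹) =
    N h (g * gen (cyc m) i * g⁻¹)) ?_ ?_ h
  · simp
  · intro h j ih
    rw [N_mul_gen, map_mul, phi_gen, N_mul, ih]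
    congr 1
    set r := h⁻¹ * g with hr
    have e1 : (phi hg h)⁻¹ * (phi hg g * gen Γ x * (phi hg g)⁻¹) * phi hg h =
        phi hg r * gen Γ x * (phi hg r)⁻¹ := by
      rw [hr, map_mul, map_inv]
      group
    rw [e1]
    by_cases hc : g * gen (cyc m) i * g⁻¹ = h * gen (cyc m) j * h⁻¹
    · rw [if_pos hc, N_block hg]
      have hij : i = j := type_unique hc
      subst hij
      refine ⟨x, hx, ?_⟩
      rw [mul_inv_eq_iff_eq_mul]
      refine ((phi_comm_iff hg r hx).2 ?_).symm
      rw [hr]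
      calc gen (cyc m) i * (h⁻¹ * g) = h⁻¹ * (h * gen (cyc m) i * h⁻¹) * g := by group
        _ = h⁻¹ * (g * gen (cyc m) i * g⁻¹) * g := by rw [hc]
        _ = _ := by group
    · rw [if_neg hc]
      rcases z2_cases (N (bl Γ B j) (phi hg r * gen Γ x * (phi hg r)⁻¹)) with h0 | h0
      · exact h0
      · exfalso
        obtain ⟨y, hy, e⟩ := (N_block hg j _).1 h0
        have hxy : x = y := type_unique (Γ := Γ) (h := 1) (v := y) (by rw [e]; simp)
        subst hxy
        have hij : i = j := by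
          by_contra hne
          exact hg.disj i j hne x hx hy
        subst hij
        rw [mul_inv_eq_iff_eq_mul] at e
        have h1 := (phi_comm_iff hg r hx).1 e.symm
        apply hc
        rw [hr] at h1
        calc g * gen (cyc m) i * g⁻¹ = h * ((h⁻¹ * g) * gen (cyc m) i) * g⁻¹ := by group
          _ = h * (gen (cyc m) i * (h⁻¹ * g)) * g⁻¹ := by rw [h1]
          _ = _ := by group

end Expand

end Pool.Agent.Helper93.RC
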