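import Pool.Agent.Helper93.RC.Rays
import Pool.Agent.Helper83.RC.B
import Pool.Agent.Helper53.RC.D
import Pool.Agent.Helper67.RC.E

/-!
# The geometric half: a good configuration gives a circle in the Morse boundary
-/

namespace Pool.Agent.Helper93.RC

open Filter Topology

theorem st_geom : ST_geom := by
  intro V _ Γ ⟨m, B, hg⟩
  obtain ⟨hcomp, q, hqc, hqs, hD1, hD2⟩ := Pool.Agent.Helper53.RCD.st_D m hg.m5
  haveI := hcomp
  obtain ⟨N, hN⟩ := Pool.Agent.Helper83.RC.st_B1 (RACG Γ) (Wl Γ) (racgW Γ)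
    (10 * Nat.card V) (Nat.card V)
  obtain ⟨E, hE⟩ := Pool.Agent.Helper83.RC.st_B2 (RACG Γ) (Wl Γ) (racgW Γ)
    (10 * Nat.card V) (Nat.card V)
  have hB3 := Pool.Agent.Helper83.RC.st_B3 (RACG Γ) (Wl Γ) (racgW Γ)
    (10 * Nat.card V) (Nat.card V)
  have hclose : ∀ (σ : Sq m) (β : ℕ → RACG Γ), IsGeodRay (cay Γ) 1 β →
      (∀ j, ∃ t, (racgW Γ).side (hW hg σ j) (β t) ≠ (racgW Γ).side (hW hg σ j) 1) →
      ∀ t, (cay Γ).dist (ex Γ B σ t) (β t) ≤ E := by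
    intro σ β hβ hc
    refine hE _ _ _ (ladder hg σ) β ?_ ?_
    · rw [ex_zero]; exact hβ
    · rw [ex_zero]; exact hc
  have hcross : ∀ (σ : Sq m) (β : ℕ → RACG Γ), IsGeodRay (cay Γ) 1 β →
      Asym (cay Γ) (ex Γ B σ) β →
      ∀ j, ∃ t, (racgW Γ).side (hW hg σ j) (β t) ≠ (racgW Γ).side (hW hg σ j) 1 := by
    intro σ β hβ hA j
    have h := hB3 _ _ _ (ladder hg σ) β (by rw [ex_zero]; exact hβ) hA j
    rw [ex_zero] at h
    exact h
  refine Pool.Agent.Helper67.RC.mod_E (Sq m) (RACG Γ) (cay Γ) 1 cay_connected q hqc hqs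
    (ex Γ B) N E (ex_geod hg) (fun σ => hN _ _ _ (ladder hg σ)) (ex_locally_constant Γ B)
    ?_ ?_
  · intro σ τ
    constructor
    · intro hq
      refine ⟨E, fun t => ⟨hclose σ _ (ex_geod hg τ) ?_ t, cay_reachable _ _⟩⟩
      intro j
      exact (ray_cross_iff hg σ τ j).2 (hD1 σ τ hq (5 * j))
    · intro hA
      refine hD2 σ τ ?_
      intro n
      exact ⟨5 * n, by omega, (ray_cross_iff hg σ τ n).1 (hcross σ _ (ex_geod hg τ) hA n)⟩
  · intro σ β hβ hA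
    exact hclose σ β hβ (hcross σ β hβ hA)

end Pool.Agent.Helper93.RC
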