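import Pool.Agent.Helper93.RC.Walls4

/-!
# Quadrants, nested walls, gates
-/

namespace Pool.Agent.Helper93.RC

open scoped Classical

variable {V : Type*} {Γ : SimpleGraph V}

/-- `x` is adjacent to the wall `h` -/
def Nr (h : Wl Γ) (x : RACG Γ) : Prop := ∃ v, h.1 = x * gen Γ v * x⁻¹

theorem exists_nr (h : Wl Γ) : ∃ x, Nr h x := by
  obtain ⟨x, v, e⟩ := h.2
  exact ⟨x, v, e⟩

theorem Nr.cross {h k : Wl Γ} {x y : RACG Γ} (hx : Nr h x) (hy : Nr h y) (hk : k ≠ h)
    (hsep : sd k x ≠ sd k y) : Crs h k := by
  obtain ⟨u, hu⟩ := hx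
  obtain ⟨v, hv⟩ := hy
  exact carrier_cross hu hv hk hsep

/-- A crossing wall maps neighbours of `h` to neighbours of `h`. -/
theorem Nr.mul {h k : Wl Γ} (hc : Crs h k) {x : RACG Γ} (hx : Nr h x) : Nr h (k.1 * x) := by
  obtain ⟨u, hu⟩ := hx
  refine ⟨u, ?_⟩
  calc h.1 = k.1 * k.1 * h.1 := by rw [k.2.mul_self, one_mul]
    _ = k.1 * (h.1 * k.1) := by rw [mul_assoc, hc.2]
    _ = k.1 * x * gen Γ u * (k.1 * x)⁻¹ := by
      rw [hu, mul_inv_rev, k.2.inv]; group

/-- if `h` and `k` cross there are neighbours of `h` on both sides of `k` -/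
theorem exists_nr_side {h k : Wl Γ} (hc : Crs h k) (b : Bool) : ∃ x, Nr h x ∧ sd k x = b := by
  obtain ⟨x, hx⟩ := exists_nr h
  by_cases hb : sd k x = b
  · exact ⟨x, hx, hb⟩
  · refine ⟨k.1 * x, hx.mul hc, ?_⟩
    have := sd_ref_mul k x
    revert hb this
    cases sd k x <;> cases sd k (k.1 * x) <;> cases b <;> simp

/-- an edge crossing `h` on a geodesic staying on one side of `k` -/
theorem exists_edge {h k : Wl Γ} {x y : RACG Γ} (hh : sd h x ≠ sd h y) (hk : sd k x = sd k y) :
    ∃ z, Nr h z ∧ sd k z = sd k x := by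
  obtain ⟨l, hl, hr⟩ := exists_red (x⁻¹ * y)
  rw [sd_ne_iff, ← hl] at hh
  obtain ⟨j, hj, e⟩ := (hr.N_iff' _).1 hh
  refine ⟨x * wp Γ (l.take j), ⟨l[j], ?_⟩, ?_⟩
  · have : h.1 = x * wall l j hj * x⁻¹ := by rw [← e]; group
    rw [this, wall]
    group
  · by_contra hcon
    have h1 : sd k x ≠ sd k (x * wp Γ (l.take j)) := fun hh => hcon hh.symm
    rw [sd_ne_iff, inv_mul_cancel_left] at h1
    obtain ⟨i, hi, e'⟩ := (hr.N_iff j hj.le _).1 h1
    have h2 : N (wp Γ l) (x⁻¹ * k.1 * x) = 1 := (hr.N_iff' _).2 ⟨i, hi.trans hj, e'⟩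
    rw [hl] at h2
    exact (sd_ne_iff k x y).2 h2 hk

/-- four non-empty quadrants -/
theorem quad {h k : Wl Γ} (hne : k ≠ h) {p q p' q' : RACG Γ} (h1 : sd h p ≠ sd h q)
    (h2 : sd k p = sd k q) (h3 : sd h p' ≠ sd h q') (h4 : sd k p' = sd k q')
    (h5 : sd k p ≠ sd k p') : Crs h k := by
  obtain ⟨z, hz, hz'⟩ := exists_edge h1 h2
  obtain ⟨w, hw, hw'⟩ := exists_edge h3 h4
  exact hz.cross hw hne (by rw [hz', hw']; exact h5)

/-- the far side (not containing `1`) -/
def Fr (h : Wl Γ) (x : RACG Γ) : Prop := N x h.1 = 1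

theorem fr_iff (h : Wl Γ) (x : RACG Γ) : Fr h x ↔ sd h x = true := by
  unfold Fr sd
  simp

theorem not_fr_iff (h : Wl Γ) (x : RACG Γ) : ¬ Fr h x ↔ sd h x = false := by
  unfold Fr sd
  simp

theorem not_fr_one (h : Wl Γ) : ¬ Fr h 1 := by
  unfold Fr
  rw [N_one]
  decide

/-- nested walls -/
def Lt (h k : Wl Γ) : Prop := ∀ x, Fr k x → Fr h x

theorem Lt.trans {h k l : Wl Γ} (h1 : Lt h k) (h2 : Lt k l) : Lt h l := fun x hx => h1 x (h2 x hx)

/-- if `h` does not cross `k` and a point is beyond `h` but not beyond `k`, and another one is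
beyond both, then `k` is nested in `h` -/
theorem lt_of {h k : Wl Γ} (hne : k ≠ h) (hc : ¬ Crs h k) {x y : RACG Γ} (h1 : Fr h x)
    (h2 : ¬ Fr k x) (h3 : Fr h y) (h4 : Fr k y) : Lt h k := by
  intro z hz
  by_contra hcon
  apply hc
  refine quad hne (p := 1) (q := x) (p' := z) (q' := y) ?_ ?_ ?_ ?_ ?_
  · rw [(not_fr_iff h 1).1 (not_fr_one h), (fr_iff h x).1 h1]
    decide
  · rw [(not_fr_iff k 1).1 (not_fr_one k), (not_fr_iff k x).1 h2]
  · rw [(not_fr_iff h z).1 hcon, (fr_iff h y).1 h3]
    decide
  · rw [(fr_iff k z).1 hz, (fr_iff k y).1 h4]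
  · rw [(not_fr_iff k 1).1 (not_fr_one k), (fr_iff k z).1 hz]
    decide

/-- nested walls do not cross -/
theorem Lt.not_cross {h k : Wl Γ} (hl : Lt h k) : ¬ Crs h k := by
  intro hc
  -- a point on the far side of `k`
  obtain ⟨x, _, hx⟩ := exists_nr_side hc true
  have h1 : Fr k x := (fr_iff k x).2 hx
  have h2 : Fr k (h.1 * x) := by
    rw [fr_iff, sd_mul_of_cross hc, hx]
  have h3 := hl _ h1
  have h4 := hl _ h2
  rw [fr_iff] at h3 h4
  exact sd_ref_mul h x (by rw [h3, h4])

theorem Lt.mid_cross {a b m k : Wl Γ} (h1 : Lt a m) (h2 : Lt m b) (ha : Crs k a) (hb : Crs k b) :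
    Crs k m := by
  have hne : m ≠ k := by
    rintro rfl
    exact h1.not_cross ha.symm
  obtain ⟨x, hx, hx'⟩ := exists_nr_side ha false
  obtain ⟨y, hy, hy'⟩ := exists_nr_side hb true
  refine hx.cross hy hne ?_
  have e1 : sd m x = false := by
    rw [← not_fr_iff]
    intro hh
    have := h1 x hh
    rw [fr_iff, hx'] at this
    exact absurd this (by decide)
  have e2 : sd m y = true := by
    rw [← fr_iff]
    exact h2 y ((fr_iff b y).2 hy')
  rw [e1, e2]
  decide

/-- Gate property and the conclusion: if two walls `k ≠ l` do not cross, there is a vertex `c`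
adjacent to `k` (of type `v`) and a letter `u ≠ v` not adjacent to `v`, such that the wall
`n = c u c⁻¹` crosses every wall crossing both `k` and `l`. -/
theorem exists_between {k l : Wl Γ} (hkl : k ≠ l) (hc : ¬ Crs k l) :
    (∃ c u v, k.1 = c * gen Γ v * c⁻¹ ∧ u ≠ v ∧ ¬ Γ.Adj v u ∧
      ∀ a : Wl Γ, Crs k a → Crs l a → Crs ⟨c * gen Γ u * c⁻¹, c, u, rfl⟩ a) ∨
    (∃ c u v, k.1 = c * gen Γ v * c⁻¹ ∧ l.1 = c * gen Γ u * c⁻¹ ∧ u ≠ v ∧ ¬ Γ.Adj v u) := by
  -- a closest pair
  have hex : ∃ n, ∃ c c', Nr k c ∧ Nr l c' ∧ len (c⁻¹ * c') = n := by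
    obtain ⟨c, hc⟩ := exists_nr k
    obtain ⟨c', hc'⟩ := exists_nr l
    exact ⟨_, c, c', hc, hc', rfl⟩
  obtain ⟨c, c', hk, hl, hn⟩ := Nat.find_spec hex
  have hmin : ∀ d d', Nr k d → Nr l d' → len (c⁻¹ * c') ≤ len (d⁻¹ * d') := by
    intro d d' hd hd'
    rw [hn]
    exact Nat.find_min' hex ⟨d, d', hd, hd', rfl⟩
  obtain ⟨v, hv⟩ := hk
  obtain ⟨v', hv'⟩ := hl
  obtain ⟨w, hw, hr⟩ := exists_red (c⁻¹ * c')
  have hlen : len (c⁻¹ * c') = w.length := by rw [← hw, red_iff_len.1 hr]
  -- neighbours of `k` obtained by an adjacent or equal letter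
  have hkn : ∀ u, Γ.Adj v u ∨ u = v → Nr k (c * gen Γ u) := by
    rintro u (hu | rfl)
    · refine ⟨v, ?_⟩
      rw [hv, mul_inv_rev, gen_inv]
      calc c * gen Γ v * c⁻¹ = c * (gen Γ u * gen Γ u) * gen Γ v * c⁻¹ := by
            rw [gen_sq, mul_one]
        _ = c * gen Γ u * (gen Γ u * gen Γ v) * c⁻¹ := by group
        _ = c * gen Γ u * (gen Γ v * gen Γ u) * c⁻¹ := by rw [gen_comm Γ hu]
        _ = _ := by group
    · refine ⟨u, ?_⟩
      rw [hv]
      group
  cases w with
  | nil =>
    -- common vertex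
    right
    have hcc : c = c' := by
      rw [wp_nil] at hw
      exact (inv_mul_eq_one.1 hw.symm)
    subst hcc
    refine ⟨c, v', v, hv, hv', ?_, ?_⟩
    · rintro rfl
      exact hkl (Subtype.ext (hv.trans hv'.symm))
    · intro hadj
      apply hc
      refine ⟨hkl, ?_⟩
      rw [hv, hv']
      calc c * gen Γ v * c⁻¹ * (c * gen Γ v' * c⁻¹) = c * (gen Γ v * gen Γ v') * c⁻¹ := by group
        _ = c * (gen Γ v' * gen Γ v) * c⁻¹ := by rw [gen_comm Γ hadj]
        _ = _ := by group
  | cons u w' =>
    left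
    have hcloser : ∀ d, d = c * gen Γ u → len (d⁻¹ * c') < len (c⁻¹ * c') := by
      rintro d rfl
      rw [hlen]
      have e : (c * gen Γ u)⁻¹ * c' = wp Γ w' := by
        rw [mul_inv_rev, gen_inv, mul_assoc, ← hw, wp_cons, ← mul_assoc, gen_sq, one_mul]
      rw [e]
      have := len_le (Γ := Γ) w'
      simp only [List.length_cons]
      omega
    have hu : ¬ (Γ.Adj v u ∨ u = v) := by
      intro hh
      have h1 := hmin _ _ (hkn u hh) ⟨v', hv'⟩
      have h2 := hcloser _ rfl
      omega
    push Not at hu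
    refine ⟨c, u, v, hv, hu.2, hu.1, ?_⟩
    set n : Wl Γ := ⟨c * gen Γ u * c⁻¹, c, u, rfl⟩ with hndef
    have hnk : n ≠ k := by
      intro hh
      have : c * gen Γ u * c⁻¹ = c * gen Γ v * c⁻¹ := by rw [← hv, ← hh]
      exact hu.2 (type_unique this)
    have hnk' : ¬ Crs k n := fun hh => hu.1 (cross_adj hh hv rfl)
    -- the gate property for `l`
    have hsplit : ∀ i (hi : i < (u :: w').length), ∀ m : Wl Γ,
        m.1 = c * wall (u :: w') i hi * c⁻¹ → ¬ Crs m l := by
      intro i
      -- strong downward induction on `i`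
      induction hd : (u :: w').length - i using Nat.strong_induction_on generalizing i with
      | _ d ih =>
        intro hi m hm hcr
        have hlater : ∀ j (hj : j < (u :: w').length), i < j →
            ∀ m' : Wl Γ, m'.1 = c * wall (u :: w') j hj * c⁻¹ → ¬ Crs m' l := by
          intro j hj hij m' hm'
          exact ih _ (by omega) j rfl hj m' hm'
        -- the letter `i` commutes with all later letters
        have hcomm : ∀ j (hj : j < (u :: w').length), i < j →
            Γ.Adj (u :: w')[i] (u :: w')[j] ∨ (u :: w')[j] = (u :: w')[i] := by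
          intro j hj hij
          by_contra hcon
          push Not at hcon
          set m' : Wl Γ := ⟨c * wall (u :: w') j hj * c⁻¹,
            c * wp Γ ((u :: w').take j), (u :: w')[j], by rw [wall]; group⟩ with hm'
          have hncr : ¬ Crs m' l := hlater j hj hij m' rfl
          have hmm : ¬ Crs m m' := by
            intro hh
            have e1 : m.1 = (c * wp Γ ((u :: w').take i)) * gen Γ (u :: w')[i] *
                (c * wp Γ ((u :: w').take i))⁻¹ := by rw [hm, wall]; group
            have e2 : m'.1 = (c * wp Γ ((u :: w').take j)) * gen Γ (u :: w')[j] *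
                (c * wp Γ ((u :: w').take j))⁻¹ := by
              show c * wall (u :: w') j hj * c⁻¹ = _
              rw [wall]; group
            exact hcon.1 (cross_adj hh e1 e2)
          -- side computations
          have side1 : ∀ (q : Wl Γ) (a : ℕ) (ha : a < (u :: w').length),
              q.1 = c * wall (u :: w') a ha * c⁻¹ → ∀ b, b ≤ (u :: w').length →
              ((sd q c ≠ sd q (c * wp Γ ((u :: w').take b))) ↔ a < b) := by
            intro q a ha hq b hb
            rw [sd_ne_iff, inv_mul_cancel_left]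
            have e : c⁻¹ * q.1 * c = wall (u :: w') a ha := by rw [hq]; group
            rw [e, hr.N_iff b hb]
            constructor
            · rintro ⟨a', ha', e'⟩
              by_contra hcon2
              exact hr.wall_ne (lt_of_lt_of_le ha' hb) ha (by omega) e'.symm
            · intro hab
              exact ⟨a, hab, rfl⟩
          have hc'eq : c * wp Γ ((u :: w').take (u :: w').length) = c' := by
            rw [List.take_length, hw, mul_inv_cancel_left]
          have s1 := side1 m i hi hm
          have s2 := side1 m' j hj rfl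
          -- `l` is not `m'`
          have hlm' : l ≠ m' := by
            intro hh
            -- then `c' * gen v'` would be closer
            have h5 : sd m' c ≠ sd m' c' := by
              have := (s2 _ le_rfl).2 hj
              rwa [hc'eq] at this
            rw [← hh, sd_ne_iff] at h5
            have h6 := len_ref_mul_lt h5
            have h7 : c⁻¹ * l.1 * c * (c⁻¹ * c') = c⁻¹ * (l.1 * c') := by group
            rw [h7] at h6
            have h8 : Nr l (l.1 * c') := by
              refine ⟨v', ?_⟩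
              rw [mul_inv_rev, l.2.inv]
              calc l.1 = l.1 * l.1 * l.1 := by rw [l.2.mul_self, one_mul]
                _ = l.1 * (c' * gen Γ v' * c'⁻¹) * l.1 := by rw [← hv']
                _ = _ := by group
            have h9 := hmin c _ ⟨v, hv⟩ h8
            omega
          -- neighbours of `l` are beyond `m'`
          obtain ⟨y, hy, hy'⟩ := exists_nr_side hcr.symm (sd m c)
          have h10 : sd m' y = sd m' c' := by
            by_contra hcon3
            exact hncr (Nr.cross hy ⟨v', hv'⟩ (Ne.symm hlm') hcon3).symm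
          -- quadrants of `m, m'`: c, c*take j, c', y
          apply hmm
          have hm'm : m' ≠ m := by
            intro hh
            have h11 : wall (Γ := Γ) (u :: w') i hi = wall (u :: w') j hj := by
              have : m.1 = m'.1 := by rw [hh]
              rw [hm] at this
              exact mul_left_cancel (mul_right_cancel this)
            exact hr.wall_ne hi hj hij h11
          have t1 := (s1 j hj.le).2 hij
          have t2 : ¬ (sd m' c ≠ sd m' (c * wp Γ ((u :: w').take j))) :=
            fun hh => absurd ((s2 j hj.le).1 hh) (lt_irrefl j)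
          push Not at t2
          have t3 : sd m c ≠ sd m c' := by
            have := (s1 _ le_rfl).2 hi
            rwa [hc'eq] at this
          have t4 : sd m' c ≠ sd m' c' := by
            have := (s2 _ le_rfl).2 hj
            rwa [hc'eq] at this
          refine quad hm'm (p := c) (q := c * wp Γ ((u :: w').take j)) (p' := y) (q' := c')
            t1 t2 ?_ h10 ?_
          · rw [hy']; exact t3
          · rw [h10]; exact t4
        -- move the letter `i` to the end
        have e1 : m.1 = (c * wp Γ ((u :: w').take i)) * gen Γ (u :: w')[i] *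
            (c * wp Γ ((u :: w').take i))⁻¹ := by rw [hm, wall]; group
        have hadj : Γ.Adj (u :: w')[i] v' := cross_adj hcr e1 hv'
        have hmove : c' * gen Γ (u :: w')[i] = m.1 * c' := by
          have hc'eq : c' = c * (wp Γ ((u :: w').take i) * (gen Γ (u :: w')[i] *
              wp Γ ((u :: w').drop (i + 1)))) := by
            rw [← wp_cons, ← List.drop_eq_getElem_cons hi, ← wp_append, List.take_append_drop, hw,
              mul_inv_cancel_left]
          have hcm : gen Γ (u :: w')[i] * wp Γ ((u :: w').drop (i + 1)) =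
              wp Γ ((u :: w').drop (i + 1)) * gen Γ (u :: w')[i] := by
            refine gen_comm_wp ?_
            intro z hz
            obtain ⟨j, hj, rfl⟩ := List.getElem_of_mem hz
            rw [List.getElem_drop]
            rw [List.length_drop] at hj
            exact hcomm (i + 1 + j) (by omega) (by omega)
          rw [e1]
          conv_lhs => rw [hc'eq]
          conv_rhs => rw [hc'eq]
          calc c * (wp Γ ((u :: w').take i) * (gen Γ (u :: w')[i] *
                wp Γ ((u :: w').drop (i + 1)))) * gen Γ (u :: w')[i]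
              = c * wp Γ ((u :: w').take i) * gen Γ (u :: w')[i] *
                (wp Γ ((u :: w').drop (i + 1)) * gen Γ (u :: w')[i]) := by group
            _ = c * wp Γ ((u :: w').take i) * gen Γ (u :: w')[i] *
                (gen Γ (u :: w')[i] * wp Γ ((u :: w').drop (i + 1))) := by rw [hcm]
            _ = _ := by group
        have h5 : N (c⁻¹ * c') (c⁻¹ * m.1 * c) = 1 := by
          rw [← hw, hr.N_iff']
          exact ⟨i, hi, by rw [hm]; group⟩
        have h6 := len_ref_mul_lt h5
        have h7 : c⁻¹ * m.1 * c * (c⁻¹ * c') = c⁻¹ * (c' * gen Γ (u :: w')[i]) := by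
          rw [hmove]; group
        rw [h7] at h6
        have h8 : Nr l (c' * gen Γ (u :: w')[i]) := by
          refine ⟨v', ?_⟩
          rw [hv', mul_inv_rev, gen_inv]
          calc c' * gen Γ v' * c'⁻¹ = c' * gen Γ v' * (gen Γ (u :: w')[i] *
                gen Γ (u :: w')[i]) * c'⁻¹ := by rw [gen_sq, mul_one]
            _ = c' * (gen Γ v' * gen Γ (u :: w')[i]) * gen Γ (u :: w')[i] * c'⁻¹ := by group
            _ = c' * (gen Γ (u :: w')[i] * gen Γ v') * gen Γ (u :: w')[i] * c'⁻¹ := by
                rw [gen_comm Γ hadj]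
            _ = _ := by group
        have h9 := hmin c _ ⟨v, hv⟩ h8
        omega
    have hnl' : ¬ Crs n l := hsplit 0 (by simp) n (by simp [hndef, wall])
    have hcn : sd n c ≠ sd n c' := by
      rw [sd_ne_iff, ← hw, hr.N_iff']
      refine ⟨0, by simp, ?_⟩
      have e1 : wall (Γ := Γ) (u :: w') 0 (by simp) = gen Γ u := by simp [wall]
      rw [e1]
      show c⁻¹ * (c * gen Γ u * c⁻¹) * c = gen Γ u
      group
    have hnl : n ≠ l := by
      intro hh
      rw [hh, sd_ne_iff] at hcn
      have h6 := len_ref_mul_lt hcn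
      have h7 : c⁻¹ * l.1 * c * (c⁻¹ * c') = c⁻¹ * (l.1 * c') := by group
      rw [h7] at h6
      have h8 : Nr l (l.1 * c') := by
        refine ⟨v', ?_⟩
        rw [mul_inv_rev, l.2.inv]
        calc l.1 = l.1 * l.1 * l.1 := by rw [l.2.mul_self, one_mul]
          _ = l.1 * (c' * gen Γ v' * c'⁻¹) * l.1 := by rw [← hv']
          _ = _ := by group
      have h9 := hmin c _ ⟨v, hv⟩ h8
      omega
    intro a hka hla
    have han : a ≠ n := by
      rintro rfl
      exact hnk' hka
    -- neighbours of `k` are on the side of `c`, neighbours of `l` on the side of `c'`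
    have hK : ∀ x, Nr k x → sd n x = sd n c := by
      intro x hx
      by_contra hcon
      exact hnk' (hx.cross ⟨v, hv⟩ hnk hcon)
    have hL : ∀ x, Nr l x → sd n x = sd n c' := by
      intro x hx
      by_contra hcon
      exact hnl' (hx.cross ⟨v', hv'⟩ hnl hcon).symm
    obtain ⟨p, hp, hp'⟩ := exists_nr_side hka false
    obtain ⟨p', hp1, hp1'⟩ := exists_nr_side hka true
    obtain ⟨q, hq, hq'⟩ := exists_nr_side hla false
    obtain ⟨q', hq1, hq1'⟩ := exists_nr_side hla true
    refine quad (h := n) (k := a) han (p := p) (q := q) (p' := p') (q' := q') ?_ ?_ ?_ ?_ ?_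
    · rw [hK p hp, hL q hq]; exact hcn
    · rw [hp', hq']
    · rw [hK p' hp1, hL q' hq1]; exact hcn
    · rw [hp1', hq1']
    · rw [hp', hp1']; decide

end Pool.Agent.Helper93.RC
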