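import Pool.Agent.Helper93.RC.Expand

/-!
# The rays of a good configuration
-/

namespace Pool.Agent.Helper93.RC

set_option linter.unusedVariables false

open scoped Classical

variable {V : Type*} {Γ : SimpleGraph V}

theorem Red.mid {l1 l2 l3 : List V} (h : Red Γ (l1 ++ (l2 ++ l3))) : Red Γ l2 := by
  intro l' hl'
  have := h (l1 ++ (l' ++ l3)) (by simp [hl'])
  simp only [List.length_append] at this
  omega

section

variable {m : ℕ}

/-- the list of the first `k` levels -/
def Lk (σ : Sq m) (k : ℕ) : List (Lv m) := (List.range k).map σ.1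

theorem Lk_succ (σ : Sq m) (k : ℕ) : Lk σ (k + 1) = Lk σ k ++ [σ.1 k] := by
  simp [Lk, List.range_succ]

theorem Lk_chain (σ : Sq m) (k : ℕ) : (Lk σ k).IsChain Ok := by
  unfold Lk
  rw [List.isChain_map]
  rw [List.isChain_iff_getElem]
  intro i hi
  rw [List.getElem_range, List.getElem_range]
  exact σ.2 i

/-- the word of the first `k` levels in the cycle group -/
def fw (σ : Sq m) (k : ℕ) : List (ZMod m) := (Lk σ k).flatMap lw

theorem fw_succ (σ : Sq m) (k : ℕ) : fw σ (k + 1) = fw σ k ++ lw (σ.1 k) := by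
  simp [fw, Lk_succ]

theorem fw_red (hm : 5 ≤ m) (σ : Sq m) (k : ℕ) : Red (cyc m) (fw σ k) :=
  red_levels hm _ (Lk_chain σ k)

theorem wp_lw (a : Lv m) : wp (cyc m) (lw a) = lvp (gen (cyc m)) a := by
  obtain ⟨z, δ⟩ := a
  unfold lw lvp
  rcases δ with _ | _ | _ <;> simp

theorem pc_eq (σ : Sq m) (k : ℕ) : pc σ k = wp (cyc m) (fw σ k) := by
  induction k with
  | zero => rfl
  | succ k ih =>
    rw [fw_succ, wp_append, ← ih, wp_lw]
    rfl

theorem pc_succ (σ : Sq m) (k : ℕ) : pc σ (k + 1) = pc σ k * wp (cyc m) (lw (σ.1 k)) := by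
  rw [pc_eq, fw_succ, wp_append, ← pc_eq]

theorem fw_prefix (σ : Sq m) {k l : ℕ} (h : k ≤ l) : ∃ r, fw σ l = fw σ k ++ r := by
  induction l, h using Nat.le_induction with
  | base => exact ⟨[], by simp⟩
  | succ l _ ih =>
    obtain ⟨r, hr⟩ := ih
    exact ⟨r ++ lw (σ.1 l), by rw [fw_succ, hr, List.append_assoc]⟩

theorem Red.N_mono {l r : List V} (h : Red Γ (l ++ r)) {t : RACG Γ} (ht : N (wp Γ l) t = 1) :
    N (wp Γ (l ++ r)) t = 1 := by
  have h1 := h.N_iff l.length (by simp) t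
  rw [List.take_left] at h1
  obtain ⟨k, hk, e⟩ := h1.1 ht
  exact (h.N_iff' t).2 ⟨k, by simp; omega, e⟩

theorem N_pc_mono (hm : 5 ≤ m) (σ : Sq m) {k l : ℕ} (h : k ≤ l) {t : RACG (cyc m)}
    (ht : N (pc σ k) t = 1) : N (pc σ l) t = 1 := by
  obtain ⟨r, hr⟩ := fw_prefix σ h
  have h1 := fw_red hm σ l
  rw [hr] at h1
  rw [pc_eq] at ht ⊢
  rw [hr]
  exact h1.N_mono ht

/-- letters in a level: the other word -/
theorem exists_lw (hm : 5 ≤ m) {a : Lv m} {i : ZMod m} (hi : a.Mem i) :
    ∃ l : List (ZMod m), wp (cyc m) (lw a) = gen (cyc m) i * wp (cyc m) l ∧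
      l.length + 1 = (lw a).length ∧ ∀ c ∈ l, c ≠ i ∧ (cyc m).Adj i c := by
  have hadj : ∀ z : ZMod m, (cyc m).Adj z (z + 1) := by
    intro z
    rw [cyc_adj]
    refine ⟨?_, Or.inl rfl⟩
    intro h
    exact one_ne_zero' hm (left_eq_add.1 h)
  have hadj' : ∀ z : ZMod m, (cyc m).Adj z (z - 1) := by
    intro z
    have := (hadj (z - 1)).symm
    rwa [sub_add_cancel] at this
  obtain ⟨z, δ⟩ := a
  unfold Lv.Mem at hi
  unfold lw
  simp only at hi
  rcases hi with rfl | ⟨hδ, rfl⟩ | ⟨hδ, rfl⟩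
  · rcases δ with _ | _ | _
    · exact ⟨[], by simp, by simp, by simp⟩
    · refine ⟨[i - 1], by simp, by simp, ?_⟩
      intro c hc
      rw [List.mem_singleton] at hc
      subst hc
      exact ⟨(hadj' i).ne.symm, hadj' i⟩
    · refine ⟨[i + 1], by simp, by simp, ?_⟩
      intro c hc
      rw [List.mem_singleton] at hc
      subst hc
      exact ⟨(hadj i).ne.symm, hadj i⟩
  · subst hδ
    refine ⟨[z], ?_, by simp, ?_⟩
    · simp only [wp_cons, wp_nil, mul_one]
      exact gen_comm _ (hadj' z)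
    · intro c hc
      rw [List.mem_singleton] at hc
      subst hc
      exact ⟨(hadj' c).ne, (hadj' c).symm⟩
  · subst hδ
    refine ⟨[z], ?_, by simp, ?_⟩
    · simp only [wp_cons, wp_nil, mul_one]
      exact gen_comm _ (hadj z)
    · intro c hc
      rw [List.mem_singleton] at hc
      subst hc
      exact ⟨(hadj c).ne, (hadj c).symm⟩

/-- the wall of a letter of level `k` is crossed exactly at level `k`. -/
theorem N_pc_iff (hm : 5 ≤ m) (σ : Sq m) (k l : ℕ) {i : ZMod m} (hi : (σ.1 k).Mem i) :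
    N (pc σ l) (pc σ k * gen (cyc m) i * (pc σ k)⁻¹) = 1 ↔ k < l := by
  obtain ⟨w, hw, hlen, hadj⟩ := exists_lw hm hi
  set t := pc σ k * gen (cyc m) i * (pc σ k)⁻¹ with ht
  have h0 : N (pc σ k) t = 0 := by
    rcases z2_cases (N (pc σ k) t) with h | h
    · exact h
    · exfalso
      have h1 := len_ref_mul_lt h
      have h2 : t * pc σ k = pc σ k * gen (cyc m) i := by rw [ht]; group
      rw [h2] at h1
      have h3 := red_iff_len.1 (fw_red hm σ (k + 1))
      rw [← pc_eq, pc_succ, hw, ← mul_assoc] at h3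
      obtain ⟨l1, hl1, hr1⟩ := exists_red (pc σ k * gen (cyc m) i)
      have h4 : len (pc σ k * gen (cyc m) i * wp (cyc m) w) ≤ l1.length + w.length := by
        have := len_le (Γ := cyc m) (l1 ++ w)
        rw [wp_append, hl1, List.length_append] at this
        exact this
      have h5 := red_iff_len.1 hr1
      rw [hl1] at h5
      have h6 := red_iff_len.1 (fw_red hm σ k)
      rw [← pc_eq] at h6
      have h7 : (fw σ (k + 1)).length = (fw σ k).length + (lw (σ.1 k)).length := by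
        rw [fw_succ, List.length_append]
      omega
  have h1 : N (pc σ (k + 1)) t = 1 := by
    rw [pc_succ, hw, ← mul_assoc, N_mul, N_mul_gen, h0, zero_add, if_pos rfl]
    have h2 : N (wp (cyc m) w) ((pc σ k * gen (cyc m) i)⁻¹ * t * (pc σ k * gen (cyc m) i)) = 0 := by
      have e : (pc σ k * gen (cyc m) i)⁻¹ * t * (pc σ k * gen (cyc m) i) = gen (cyc m) i := by
        rw [ht]; group
      rw [e]
      rcases z2_cases (N (wp (cyc m) w) (gen (cyc m) i)) with h | h
      · exact h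
      · exfalso
        have h3 : N (wp (cyc m) w) (gen (cyc m) i) = 0 := by
          clear * - hadj
          induction w with
          | nil => simp
          | cons c w ih =>
            obtain ⟨h1, h2⟩ := hadj c (by simp)
            rw [wp_cons, N_gen_mul, if_neg (fun h => h1 (gen_injective h).symm), zero_add]
            have e : gen (cyc m) c * gen (cyc m) i * gen (cyc m) c = gen (cyc m) i := by
              rw [gen_comm _ h2.symm, mul_assoc, gen_sq, mul_one]
            rw [e]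
            exact ih (fun c' hc' => hadj c' (by simp [hc']))
        rw [h3] at h
        exact absurd h (by decide)
    rw [h2, add_zero]
  constructor
  · intro h
    by_contra hcon
    have := N_pc_mono hm σ (not_lt.1 hcon) h
    rw [h0] at this
    exact absurd this (by decide)
  · intro h
    exact N_pc_mono hm σ h h1

end

section

variable {m : ℕ} {B : ZMod m → Finset V}

theorem lvl_eq (a : Lv m) : lvl B a = expw B (lw a) := by
  obtain ⟨z, δ⟩ := a
  unfold lvl lw expw
  rcases δ with _ | _ | _ <;> simp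

theorem wd_eq (σ : Sq m) (k : ℕ) : wd B σ.1 k = expw B (fw σ k) := by
  induction k with
  | zero => rfl
  | succ k ih =>
    rw [fw_succ, expw_append, ← ih, ← lvl_eq]
    rfl

theorem wd_red (hg : GoodConf Γ m B) (σ : Sq m) (k : ℕ) : Red Γ (wd B σ.1 k) := by
  rw [wd_eq]
  exact hg.red_expw (fw_red hg.m5 σ k)

theorem phi_pc (hg : GoodConf Γ m B) (σ : Sq m) (k : ℕ) :
    phi hg (pc σ k) = wp Γ (wd B σ.1 k) := by
  rw [pc_eq, phi_wp, wd_eq]

/-- the wall of the letter `y` of level `k` -/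
noncomputable def W (hg : GoodConf Γ m B) (σ : Sq m) (k : ℕ) (y : V) : Wl Γ :=
  ⟨phi hg (pc σ k) * gen Γ y * (phi hg (pc σ k))⁻¹, _, _, rfl⟩

theorem fr_W (hg : GoodConf Γ m B) (σ : Sq m) (k l : ℕ) {i : ZMod m} (hi : (σ.1 k).Mem i) {y : V}
    (hy : y ∈ B i) : Fr (W hg σ k y) (phi hg (pc σ l)) ↔ k < l := by
  unfold Fr W
  simp only
  rw [N_phi hg _ _ hy]
  exact N_pc_iff hg.m5 σ k l hi

theorem lt_W (hg : GoodConf Γ m B) (σ : Sq m) {k k' : ℕ} (hk : k < k') {i i' : ZMod m}
    (hi : (σ.1 k).Mem i) (hi' : (σ.1 k').Mem i') {y y' : V} (hy : y ∈ B i) (hy' : y' ∈ B i')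
    (hne : y ≠ y') (hadj : ¬ Γ.Adj y y') : Lt (W hg σ k y) (W hg σ k' y') := by
  refine lt_of (x := phi hg (pc σ k')) (y := phi hg (pc σ (k' + 1))) ?_ ?_ ?_ ?_ ?_ ?_
  · intro h
    exact hne (type_unique (congrArg Subtype.val h)).symm
  · intro h
    exact hadj (cross_adj h rfl rfl)
  · exact (fr_W hg σ k k' hi hy).2 hk
  · rw [fr_W hg σ k' k' hi' hy']
    exact lt_irrefl _
  · exact (fr_W hg σ k _ hi hy).2 (by omega)
  · exact (fr_W hg σ k' _ hi' hy').2 (by omega)

theorem mem_z (a : Lv m) : a.Mem a.z := Or.inl rfl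

theorem lt_marked (hg : GoodConf Γ m B) (σ : Sq m) (n : ℕ) : ∀ (k k' : ℕ), k' = k + 2 + n →
    ∀ x ∈ B (σ.1 k).z, ∀ y ∈ B (σ.1 k').z, Lt (W hg σ k x) (W hg σ k' y) := by
  induction n with
  | zero =>
    rintro k k' rfl x hx y hy
    have f1 := (σ.2 k).1
    have f2 := (σ.2 (k + 1)).1
    obtain ⟨w, hw, h1, h2⟩ := hg.mix _ _ _ f1 f2 x hx y hy
    refine (lt_W hg σ (Nat.lt_succ_self k) (mem_z _) (mem_z _) hx hw ?_ h1).trans
      (lt_W hg σ (Nat.lt_succ_self (k + 1)) (mem_z _) (mem_z _) hw hy ?_ h2)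
    · rintro rfl
      exact hg.disj _ _ f1.ne x hx hw
    · rintro rfl
      exact hg.disj _ _ f2.ne w hw hy
  | succ n ih =>
    rintro k k' rfl x hx y hy
    have f1 := (σ.2 k).1
    obtain ⟨w, hw, h1, h2⟩ := hg.mix _ _ _ f1 f1.symm x hx x hx
    refine (lt_W hg σ (Nat.lt_succ_self k) (mem_z _) (mem_z _) hx hw ?_ h1).trans
      (ih (k + 1) _ (by ring) w hw y hy)
    rintro rfl
    exact hg.disj _ _ f1.ne x hx hw

theorem lt_marked' (hg : GoodConf Γ m B) (σ : Sq m) {k k' : ℕ} (h : k + 2 ≤ k') {x y : V}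
    (hx : x ∈ B (σ.1 k).z) (hy : y ∈ B (σ.1 k').z) : Lt (W hg σ k x) (W hg σ k' y) :=
  lt_marked hg σ (k' - (k + 2)) k k' (by omega) x hx y hy

/-- a marked letter -/
noncomputable def mk (hg : GoodConf Γ m B) (σ : Sq m) (k : ℕ) : V :=
  (B (σ.1 k).z).toList.head (by
    intro h
    rw [Finset.toList_eq_nil] at h
    exact (hg.ne (σ.1 k).z).ne_empty h)

theorem mk_mem (hg : GoodConf Γ m B) (σ : Sq m) (k : ℕ) : mk hg σ k ∈ B (σ.1 k).z :=
  Finset.mem_toList.1 (List.head_mem _)

/-- the walls of the ladder -/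
noncomputable def hW (hg : GoodConf Γ m B) (σ : Sq m) (j : ℕ) : Wl Γ :=
  W hg σ (5 * j) (mk hg σ (5 * j))

/-- types of walls crossing two consecutive walls of the ladder -/
theorem few_adj (hg : GoodConf Γ m B) (σ : Sq m) (j : ℕ) {k : Wl Γ} (h1 : Crs (hW hg σ j) k)
    (h2 : Crs (hW hg σ (j + 1)) k) {g : RACG Γ} {v : V} (hv : k.1 = g * gen Γ v * g⁻¹) :
    (∀ y ∈ B (σ.1 (5 * j + 2)).z, Γ.Adj v y) ∧ (∀ y ∈ B (σ.1 (5 * j + 3)).z, Γ.Adj v y) := by
  constructor
  · intro y hy
    have a1 : Lt (hW hg σ j) (W hg σ (5 * j + 2) y) :=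
      lt_marked' hg σ (by omega) (mk_mem hg σ _) hy
    have a2 : Lt (W hg σ (5 * j + 2) y) (hW hg σ (j + 1)) :=
      lt_marked' hg σ (by omega) hy (mk_mem hg σ _)
    exact cross_adj (Lt.mid_cross a1 a2 h1.symm h2.symm) hv rfl
  · intro y hy
    have a1 : Lt (hW hg σ j) (W hg σ (5 * j + 3) y) :=
      lt_marked' hg σ (by omega) (mk_mem hg σ _) hy
    have a2 : Lt (W hg σ (5 * j + 3) y) (hW hg σ (j + 1)) :=
      lt_marked' hg σ (by omega) hy (mk_mem hg σ _)
    exact cross_adj (Lt.mid_cross a1 a2 h1.symm h2.symm) hv rfl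

theorem few_clique (hg : GoodConf Γ m B) (σ : Sq m) (j : ℕ) {k l : Wl Γ} (hkl : k ≠ l)
    (h1 : Crs (hW hg σ j) k) (h2 : Crs (hW hg σ (j + 1)) k)
    (h3 : Crs (hW hg σ j) l) (h4 : Crs (hW hg σ (j + 1)) l) : Crs k l := by
  by_contra hc
  have hfar := (σ.2 (5 * j + 2)).1
  rcases exists_between hkl hc with ⟨c, u, v, hv, huv, hadj, hall⟩ | ⟨c, u, v, hv, hu, huv, hadj⟩
  · have a := few_adj hg σ j h1 h2 hv
    have b := few_adj hg σ j (hall _ h1.symm h3.symm).symm (hall _ h2.symm h4.symm).symm rfl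
    exact hadj (hg.nbhd _ _ hfar v u a.1 a.2 b.1 b.2 huv.symm)
  · have a := few_adj hg σ j h1 h2 hv
    have b := few_adj hg σ j h3 h4 hu
    exact hadj (hg.nbhd _ _ hfar v u a.1 a.2 b.1 b.2 huv.symm)

theorem few_bound [Finite V] (hg : GoodConf Γ m B) (σ : Sq m) (j : ℕ) :
    {k | Crs (hW hg σ j) k ∧ Crs (hW hg σ (j + 1)) k}.Finite ∧
      {k | Crs (hW hg σ j) k ∧ Crs (hW hg σ (j + 1)) k}.ncard ≤ Nat.card V := by
  set S := {k | Crs (hW hg σ j) k ∧ Crs (hW hg σ (j + 1)) k} with hS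
  -- the type map
  let τ : Wl Γ → V := fun k => k.2.choose_spec.choose
  have hτ : ∀ k : Wl Γ, k.1 = k.2.choose * gen Γ (τ k) * (k.2.choose)⁻¹ :=
    fun k => k.2.choose_spec.choose_spec
  have hinj : Set.InjOn τ S := by
    intro k hk l hl e
    by_contra hne
    have h1 := few_clique hg σ j hne hk.1 hk.2 hl.1 hl.2
    have h2 := cross_adj h1 (hτ k) (hτ l)
    rw [e] at h2
    exact h2.ne rfl
  have hfin : S.Finite := by
    refine Set.Finite.of_finite_image (Set.toFinite (τ '' S)) hinj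
  refine ⟨hfin, ?_⟩
  rw [← Set.ncard_image_of_injOn hinj, ← Set.ncard_univ]
  exact Set.ncard_le_ncard (Set.subset_univ _)

/-! ### the ray -/

theorem lvl_length_pos (hg : GoodConf Γ m B) (a : Lv m) : 1 ≤ (lvl B a).length := by
  have h : 1 ≤ (B a.z).card := Finset.card_pos.2 (hg.ne a.z)
  obtain ⟨z, δ⟩ := a
  unfold lvl
  rcases δ with _ | _ | _ <;> simp only [List.length_append, Finset.length_toList] at * <;> omega

theorem lvl_length_le [Finite V] (a : Lv m) : (lvl B a).length ≤ 2 * Nat.card V := by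
  have h : ∀ i, (B i).card ≤ Nat.card V := by
    intro i
    have := Fintype.ofFinite V
    rw [Nat.card_eq_fintype_card]
    exact Finset.card_le_univ _
  obtain ⟨z, δ⟩ := a
  have h1 := h z
  have h2 := h (z - 1)
  have h3 := h (z + 1)
  unfold lvl
  rcases δ with _ | _ | _ <;> simp only [List.length_append, Finset.length_toList] <;> omega

theorem wd_succ (σ : ℕ → Lv m) (k : ℕ) : wd B σ (k + 1) = wd B σ k ++ lvl B (σ k) := rfl

theorem wd_length_ge (hg : GoodConf Γ m B) (σ : ℕ → Lv m) (k : ℕ) :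
    k ≤ (wd B σ k).length := by
  induction k with
  | zero => simp
  | succ k ih =>
    rw [wd_succ, List.length_append]
    have := lvl_length_pos hg (σ k)
    omega

theorem wd_prefix (σ : ℕ → Lv m) {k l : ℕ} (h : k ≤ l) : ∃ r, wd B σ l = wd B σ k ++ r := by
  induction l, h using Nat.le_induction with
  | base => exact ⟨[], by simp⟩
  | succ l _ ih =>
    obtain ⟨r, hr⟩ := ih
    exact ⟨r ++ lvl B (σ l), by rw [wd_succ, hr, List.append_assoc]⟩

theorem wd_length_mono (σ : ℕ → Lv m) {k l : ℕ} (h : k ≤ l) :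
    (wd B σ k).length ≤ (wd B σ l).length := by
  obtain ⟨r, hr⟩ := wd_prefix (B := B) σ h
  rw [hr, List.length_append]
  omega

/-- the ray read in any sufficiently long word -/
theorem ex_eq (hg : GoodConf Γ m B) (σ : Sq m) (t k : ℕ) (h : t ≤ (wd B σ.1 k).length) :
    ex Γ B σ t = wp Γ ((wd B σ.1 k).take t) := by
  unfold ex
  have ht := wd_length_ge hg σ.1 t
  rcases le_total t k with hk | hk
  · obtain ⟨r, hr⟩ := wd_prefix (B := B) σ.1 hk
    rw [hr, List.take_append_of_le_length ht]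
  · obtain ⟨r, hr⟩ := wd_prefix (B := B) σ.1 hk
    rw [hr, List.take_append_of_le_length h]

theorem ex_level (hg : GoodConf Γ m B) (σ : Sq m) (k : ℕ) :
    ex Γ B σ (wd B σ.1 k).length = phi hg (pc σ k) := by
  rw [ex_eq hg σ _ k le_rfl, List.take_length, phi_pc]

theorem ex_zero (σ : Sq m) : ex Γ B σ 0 = 1 := by
  simp [ex]

theorem ex_geod (hg : GoodConf Γ m B) (σ : Sq m) : IsGeodRay (cay Γ) 1 (ex Γ B σ) := by
  refine ⟨ex_zero σ, ?_⟩
  have key : ∀ i j, i ≤ j → (cay Γ).dist (ex Γ B σ i) (ex Γ B σ j) = j - i := by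
    intro i j hij
    have hj := wd_length_ge hg σ.1 j
    rw [cay_dist, ex_eq hg σ i j (hij.trans hj), ex_eq hg σ j j hj]
    set w := wd B σ.1 j with hw
    have e : w.take j = w.take i ++ (w.take j).drop i := by
      conv_lhs => rw [← List.take_append_drop i (w.take j)]
      rw [List.take_take, min_eq_left hij]
    have e2 : (wp Γ (w.take i))⁻¹ * wp Γ (w.take j) = wp Γ ((w.take j).drop i) := by
      rw [e, wp_append, inv_mul_cancel_left]
      congr 1
      rw [← e]
    rw [e2]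
    have hr : Red Γ ((w.take j).drop i) := by
      have h1 := wd_red hg σ j
      rw [← hw, ← List.take_append_drop j w, e, List.append_assoc] at h1
      exact h1.mid
    rw [red_iff_len.1 hr, List.length_drop, List.length_take, min_eq_left hj]
  intro i j
  rcases le_total i j with h | h
  · rw [key i j h]
    rw [abs_of_nonpos (by omega)]
    omega
  · rw [SimpleGraph.dist_comm, key j i h, abs_of_nonneg (by omega)]
    omega

theorem ladder [Finite V] (hg : GoodConf Γ m B) (σ : Sq m) :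
    Ladder (racgW Γ) (10 * Nat.card V) (Nat.card V) (ex Γ B σ) (hW hg σ)
      (fun j => (wd B σ.1 (5 * j)).length) where
  geod := (ex_geod hg σ).2
  mono := by
    refine strictMono_nat_of_lt_succ ?_
    intro j
    have h1 : (wd B σ.1 (5 * j + 1)).length ≤ (wd B σ.1 (5 * (j + 1))).length :=
      wd_length_mono _ (by omega)
    rw [wd_succ, List.length_append] at h1
    have := lvl_length_pos hg (σ.1 (5 * j))
    omega
  pos0 := by simp [wd]
  gap := by
    intro j
    have h : ∀ n, (wd B σ.1 (5 * j + n)).length ≤ (wd B σ.1 (5 * j)).length + n * (2 * Nat.card V) := by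
      intro n
      induction n with
      | zero => simp
      | succ n ih =>
        have e0 : wd B σ.1 (5 * j + (n + 1)) =
          wd B σ.1 (5 * j + n) ++ lvl B (σ.1 (5 * j + n)) := wd_succ _ _
        rw [e0, List.length_append]
        have := lvl_length_le (B := B) (σ.1 (5 * j + n))
        have e3 := Nat.succ_mul n (2 * Nat.card V)
        rw [Nat.succ_eq_add_one] at e3
        omega
    have := h 5
    have e4 : 5 * (j + 1) = 5 * j + 5 := by ring
    show (wd B σ.1 (5 * (j + 1))).length ≤ (wd B σ.1 (5 * j)).length + 10 * Nat.card V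
    rw [e4]
    omega
  cross := by
    intro j
    show sd _ _ ≠ sd _ _
    have hlen : (wd B σ.1 (5 * j)).length + 1 ≤ (wd B σ.1 (5 * j + 1)).length := by
      rw [wd_succ, List.length_append]
      have := lvl_length_pos hg (σ.1 (5 * j))
      omega
    rw [ex_eq hg σ _ (5 * j) le_rfl, ex_eq hg σ _ (5 * j + 1) hlen]
    have e1 : (wd B σ.1 (5 * j + 1)).take ((wd B σ.1 (5 * j)).length + 1) =
        wd B σ.1 (5 * j) ++ [mk hg σ (5 * j)] := by
      rw [wd_succ, List.take_append, List.take_of_length_le (by omega)]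
      congr 1
      rw [show (wd B σ.1 (5 * j)).length + 1 - (wd B σ.1 (5 * j)).length = 1 from by omega]
      have h2 : ∃ r, lvl B (σ.1 (5 * j)) = (B (σ.1 (5 * j)).z).toList ++ r := by
        unfold lvl
        rcases (σ.1 (5 * j)).δ with _ | _ | _
        · exact ⟨[], by simp⟩
        · exact ⟨_, rfl⟩
        · exact ⟨_, rfl⟩
      obtain ⟨r, hr⟩ := h2
      have hne : (B (σ.1 (5 * j)).z).toList ≠ [] := by
        intro h
        rw [Finset.toList_eq_nil] at h
        exact (hg.ne (σ.1 (5 * j)).z).ne_empty h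
      rw [hr]
      unfold mk
      have key : ∀ (L : List V) (hL : L ≠ []) (r : List V), (L ++ r).take 1 = [L.head hL] := by
        intro L hL r
        cases L with
        | nil => exact absurd rfl hL
        | cons a l => simp
      exact key _ hne r
    rw [e1, List.take_length, wp_append, wp_cons, wp_nil, mul_one, sd_edge, ← phi_pc hg]
    rfl
  ncr := by
    intro i j hij
    show ¬ Crs _ _
    rcases lt_or_gt_of_ne hij with h | h
    · exact (lt_marked' hg σ (by omega) (mk_mem hg σ _) (mk_mem hg σ _)).not_cross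
    · intro hc
      exact (lt_marked' hg σ (k := 5 * j) (k' := 5 * i) (by omega) (mk_mem hg σ _)
        (mk_mem hg σ _)).not_cross hc.symm
  fin := fun j => (few_bound hg σ j).1
  few := fun j => (few_bound hg σ j).2

/-- crossing the `j`-th wall of the ladder, in the group of the cycle -/
theorem cross_iff (hg : GoodConf Γ m B) (σ τ : Sq m) (j l : ℕ) :
    Fr (hW hg σ j) (phi hg (pc τ l)) ↔ N (pc τ l) (tk σ (5 * j)) = 1 := by
  unfold Fr hW W
  simp only
  rw [N_phi hg _ _ (mk_mem hg σ (5 * j))]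
  rfl

theorem fr_ex_mono (hg : GoodConf Γ m B) (τ : Sq m) (h : Wl Γ) {t t' : ℕ} (htt : t ≤ t')
    (hf : Fr h (ex Γ B τ t)) : Fr h (ex Γ B τ t') := by
  have hj := wd_length_ge hg τ.1 t'
  rw [Fr, ex_eq hg τ t t' (htt.trans hj)] at hf
  rw [Fr, ex_eq hg τ t' t' hj]
  obtain ⟨k, hk, e⟩ := ((wd_red hg τ t').N_iff t (htt.trans hj) _).1 hf
  exact ((wd_red hg τ t').N_iff t' hj _).2 ⟨k, hk.trans_le htt, e⟩

theorem side_ne_iff_fr (h : Wl Γ) (x : RACG Γ) : (racgW Γ).side h x ≠ (racgW Γ).side h 1 ↔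
    Fr h x := by
  show sd h x ≠ sd h 1 ↔ _
  rw [(not_fr_iff h 1).1 (not_fr_one h), fr_iff]
  cases sd h x <;> simp

/-- the ray of `τ` crosses the `j`-th wall of the ladder of `σ` iff the sequence `τ` does. -/
theorem ray_cross_iff (hg : GoodConf Γ m B) (σ τ : Sq m) (j : ℕ) :
    (∃ t, (racgW Γ).side (hW hg σ j) (ex Γ B τ t) ≠ (racgW Γ).side (hW hg σ j) 1) ↔
      ∃ l, N (pc τ l) (tk σ (5 * j)) = 1 := by
  constructor
  · rintro ⟨t, ht⟩
    rw [side_ne_iff_fr] at ht
    refine ⟨t, ?_⟩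
    rw [← cross_iff hg, ← ex_level hg]
    exact fr_ex_mono hg τ _ (wd_length_ge hg τ.1 t) ht
  · rintro ⟨l, hl⟩
    refine ⟨(wd B τ.1 l).length, ?_⟩
    rw [side_ne_iff_fr, ex_level hg, cross_iff hg]
    exact hl

/-- local constancy -/
theorem ex_locally_constant (Γ : SimpleGraph V) (B : ZMod m → Finset V) (t : ℕ) :
    IsLocallyConstant (fun σ : Sq m => ex Γ B σ t) := by
  rw [IsLocallyConstant.iff_exists_open]
  intro σ
  refine ⟨{τ | ∀ k < t, τ.1 k = σ.1 k}, ?_, fun k _ => rfl, ?_⟩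
  · have h : {τ : Sq m | ∀ k < t, τ.1 k = σ.1 k} =
        ⋂ k ∈ Finset.range t, (fun τ : Sq m => τ.1 k) ⁻¹' {σ.1 k} := by
      ext τ
      simp
    rw [h]
    refine isOpen_biInter_finset ?_
    intro k _
    refine (isOpen_discrete _).preimage ?_
    exact (continuous_apply k).comp continuous_subtype_val
  · intro τ hτ
    have h : ∀ k ≤ t, wd B τ.1 k = wd B σ.1 k := by
      intro k hk
      induction k with
      | zero => rfl
      | succ k ih => rw [wd_succ, wd_succ, ih (by omega), hτ k (by omega)]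
    show ex Γ B τ t = ex Γ B σ t
    unfold ex
    rw [h t le_rfl]

end

end Pool.Agent.Helper93.RC
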