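import Pool.Agent.Helper93.RC.Walls

/-!
# Specification of the modules (statements as `Prop`s)
-/

namespace Pool.Agent.Helper93.RC

open Filter Topology
open scoped Classical

/-! ### Module B: graphs with walls -/

/-- A graph with a system of walls (`side h x` says on which side of `h` the vertex `x` is). -/
structure WallStr (X H : Type*) where
  G : SimpleGraph X
  side : H → X → Bool
  /-- crossing of walls -/
  cr : H → H → Prop
  conn : G.Connected
  cr_symm : ∀ h k, cr h k → cr k h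
  fin : ∀ x y, {h | side h x ≠ side h y}.Finite
  dist_eq : ∀ x y, G.dist x y = {h | side h x ≠ side h y}.ncard
  /-- if `x` and `y` are adjacent to the wall `h` and `k ≠ h` separates `x` and `y`
  then `k` crosses `h` -/
  carrier : ∀ h k x x' y y', G.Adj x x' → side h x ≠ side h x' → G.Adj y y' →
    side h y ≠ side h y' → k ≠ h → side k x ≠ side k y → cr h k

/-- A geodesic ray `α` crossing a sequence of pairwise non-crossing walls `h j` at the edges
`pos j`, with bounded gaps, such that at most `M` walls cross both `h j` and `h (j+1)`. -/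
structure Ladder {X H : Type*} (W : WallStr X H) (D M : ℕ) (α : ℕ → X) (h : ℕ → H)
    (pos : ℕ → ℕ) : Prop where
  geod : ∀ i j : ℕ, (W.G.dist (α i) (α j) : ℤ) = |(i : ℤ) - (j : ℤ)|
  mono : StrictMono pos
  pos0 : pos 0 ≤ D
  gap : ∀ j, pos (j + 1) ≤ pos j + D
  cross : ∀ j, W.side (h j) (α (pos j)) ≠ W.side (h j) (α (pos j + 1))
  ncr : ∀ i j, i ≠ j → ¬ W.cr (h i) (h j)
  fin : ∀ j, {k | W.cr (h j) k ∧ W.cr (h (j + 1)) k}.Finite
  few : ∀ j, {k | W.cr (h j) k ∧ W.cr (h (j + 1)) k}.ncard ≤ M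

def ST_B1 (X H : Type*) : Prop :=
  ∀ (W : WallStr X H) (D M : ℕ), ∃ N : ℝ → ℝ → ℝ, ∀ α h pos, Ladder W D M α h pos →
    IsMorse W.G N α

def ST_B2 (X H : Type*) : Prop :=
  ∀ (W : WallStr X H) (D M : ℕ), ∃ E : ℕ, ∀ α h pos, Ladder W D M α h pos →
    ∀ β, IsGeodRay W.G (α 0) β → (∀ j, ∃ t, W.side (h j) (β t) ≠ W.side (h j) (α 0)) →
      ∀ t, W.G.dist (α t) (β t) ≤ E

def ST_B3 (X H : Type*) : Prop :=
  ∀ (W : WallStr X H) (D M : ℕ) α h pos, Ladder W D M α h pos →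
    ∀ β, IsGeodRay W.G (α 0) β → Asym W.G α β →
      ∀ j, ∃ t, W.side (h j) (β t) ≠ W.side (h j) (α 0)

/-! ### Module D: the circle -/

/-- the `m`-cycle graph -/
def cyc (m : ℕ) : SimpleGraph (ZMod m) := SimpleGraph.fromRel fun i j => j = i + 1

/-- A level: the clique `{z}`, `{z, z - 1}` or `{z, z + 1}` of the cycle. -/
structure Lv (m : ℕ) where
  z : ZMod m
  δ : Option Bool

instance (m : ℕ) : TopologicalSpace (Lv m) := ⊥
instance (m : ℕ) : DiscreteTopology (Lv m) := ⟨rfl⟩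

/-- membership of a vertex of the cycle in a level -/
def Lv.Mem {m : ℕ} (a : Lv m) (i : ZMod m) : Prop :=
  i = a.z ∨ (a.δ = some false ∧ i = a.z - 1) ∨ (a.δ = some true ∧ i = a.z + 1)

/-- admissible transition between consecutive levels (Foata condition; the marked vertices are
far) -/
def Ok {m : ℕ} (a b : Lv m) : Prop :=
  Far a.z b.z ∧ ∀ i, b.Mem i → ∃ j, a.Mem j ∧ Far j i

/-- infinite admissible sequences of levels -/
def Sq (m : ℕ) : Type := {σ : ℕ → Lv m // ∀ k, Ok (σ k) (σ (k + 1))}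

instance (m : ℕ) : TopologicalSpace (Sq m) := instTopologicalSpaceSubtype

/-- product over a level -/
def lvp {m : ℕ} {H : Type*} [Monoid H] (b : ZMod m → H) (a : Lv m) : H :=
  match a.δ with
  | none => b a.z
  | some false => b a.z * b (a.z - 1)
  | some true => b a.z * b (a.z + 1)

/-- product over the first `k` levels -/
def pp {m : ℕ} {H : Type*} [Monoid H] (b : ZMod m → H) (σ : ℕ → Lv m) : ℕ → H
  | 0 => 1
  | k + 1 => pp b σ k * lvp b (σ k)

/-- the group elements of a sequence of levels in the Coxeter group of the cycle -/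
noncomputable def pc {m : ℕ} (σ : Sq m) (k : ℕ) : RACG (cyc m) := pp (gen (cyc m)) σ.1 k

/-- the wall of the marked letter of level `k` -/
noncomputable def tk {m : ℕ} (σ : Sq m) (k : ℕ) : RACG (cyc m) :=
  pc σ k * gen (cyc m) (σ.1 k).z * (pc σ k)⁻¹

def ST_D : Prop :=
  ∀ m : ℕ, 5 ≤ m → CompactSpace (Sq m) ∧ ∃ q : Sq m → Circle,
    Continuous q ∧ Function.Surjective q ∧
    (∀ σ τ : Sq m, q σ = q τ → ∀ k, ∃ l, N (pc τ l) (tk σ k) = 1) ∧
    (∀ σ τ : Sq m, (∀ n, ∃ k ≥ n, ∃ l, N (pc τ l) (tk σ k) = 1) → q σ = q τ)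

/-! ### Module E: assembling the topological embedding -/

def ST_E : Prop :=
  ∀ (A X : Type) [TopologicalSpace A] [CompactSpace A] (G : SimpleGraph X) (e : X),
    G.Connected → ∀ (q : A → Circle), Continuous q → Function.Surjective q →
    ∀ (ex : A → ℕ → X) (N : ℝ → ℝ → ℝ) (E : ℕ),
      (∀ a, IsGeodRay G e (ex a)) → (∀ a, IsMorse G N (ex a)) →
      (∀ t, IsLocallyConstant (fun a => ex a t)) →
      (∀ a b, q a = q b ↔ Asym G (ex a) (ex b)) →
      (∀ a β, IsGeodRay G e β → Asym G (ex a) β → ∀ t, G.dist (ex a t) (β t) ≤ E) →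
      ∃ f : Circle → MorseBdry G e, IsEmbedding f

/-! ### Module C: rays of a good configuration -/

/-- the letters of a level, for the blocks `B` -/
noncomputable def lvl {m : ℕ} {V : Type*} (B : ZMod m → Finset V) (a : Lv m) : List V :=
  match a.δ with
  | none => (B a.z).toList
  | some false => (B a.z).toList ++ (B (a.z - 1)).toList
  | some true => (B a.z).toList ++ (B (a.z + 1)).toList

/-- the word of the first `k` levels -/
noncomputable def wd {m : ℕ} {V : Type*} (B : ZMod m → Finset V) (σ : ℕ → Lv m) : ℕ → List V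
  | 0 => []
  | k + 1 => wd B σ k ++ lvl B (σ k)

/-- the ray of `RACG Γ` spelled by a sequence of levels -/
noncomputable def ex {m : ℕ} {V : Type*} (Γ : SimpleGraph V) (B : ZMod m → Finset V)
    (σ : Sq m) (t : ℕ) : RACG Γ := wp Γ ((wd B σ.1 t).take t)

/-- the geometric half of the theorem -/
def ST_geom : Prop := ∀ (V : Type) [Finite V] (Γ : SimpleGraph V), HasConf Γ → HasCircle Γ

/-! ### Probability modules -/

/-- weight of a graph -/
noncomputable def wt (n : ℕ) (p : ℝ) (G : SimpleGraph (Fin n)) : ℝ :=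
  p ^ G.edgeSet.ncard * (1 - p) ^ (n.choose 2 - G.edgeSet.ncard)

/-- expectation -/
noncomputable def Ex (n : ℕ) (p : ℝ) (f : SimpleGraph (Fin n) → ℝ) : ℝ :=
  ∑ G : SimpleGraph (Fin n), wt n p G * f G

/-- `f` depends only on the pairs in `D` -/
def DepOn {n : ℕ} (f : SimpleGraph (Fin n) → ℝ) (D : Set (Sym2 (Fin n))) : Prop :=
  ∀ G G' : SimpleGraph (Fin n), (∀ e ∈ D, e ∈ G.edgeSet ↔ e ∈ G'.edgeSet) → f G = f G'

/-- P0a: total mass one. -/
def ST_P0a : Prop := ∀ (n : ℕ) (p : ℝ), Ex n p (fun _ => 1) = 1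

/-- P0b: product formula for functions depending on disjoint sets of pairs. -/
def ST_P0b : Prop := ∀ (n : ℕ) (p : ℝ) (ι : Type) (s : Finset ι)
  (f : ι → SimpleGraph (Fin n) → ℝ) (D : ι → Set (Sym2 (Fin n))),
  (∀ a ∈ s, DepOn (f a) (D a)) → (∀ a ∈ s, ∀ b ∈ s, a ≠ b → Disjoint (D a) (D b)) →
    Ex n p (fun G => ∏ a ∈ s, f a G) = ∏ a ∈ s, Ex n p (f a)

/-- P0c: one edge. -/
def ST_P0c : Prop := ∀ (n : ℕ) (p : ℝ) (e : Sym2 (Fin n)), ¬ e.IsDiag →
  Ex n p (fun G => if e ∈ G.edgeSet then 1 else 0) = p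

/-- roles of a blow-up of the 5-cycle with block sizes `k` -/
abbrev Role (k : ZMod 5 → ℕ) : Type := Σ i : ZMod 5, Fin (k i)

/-- adjacency of roles: same block or consecutive blocks -/
def radj {k : ZMod 5 → ℕ} (a b : Role k) : Prop :=
  a ≠ b ∧ (b.1 = a.1 ∨ b.1 = a.1 + 1 ∨ a.1 = b.1 + 1)

/-- number of unordered adjacent pairs in a set of roles -/
noncomputable def eT {k : ZMod 5 → ℕ} (T : Finset (Role k)) : ℕ :=
  ((T ×ˢ T).filter fun x => radj x.1 x.2).card / 2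

/-- number of vertices of the blow-up -/
def vk (k : ZMod 5 → ℕ) : ℕ := ∑ i, k i

/-- overlap sum of the second moment -/
noncomputable def tau (n : ℕ) (p : ℝ) (k : ZMod 5 → ℕ) : ℝ :=
  ∑ T ∈ (Finset.univ : Finset (Finset (Role k))).filter (fun T => T.Nonempty),
    (2 * (vk k : ℝ) / n) ^ T.card * (p⁻¹) ^ eT T

/-- bound for the conditional probability that a copy is bad -/
noncomputable def bad (n : ℕ) (p : ℝ) (k : ZMod 5 → ℕ) : ℝ :=
  ∑ i : ZMod 5, (n : ℝ) * p ^ (k i + k (i + 2)) +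
    ∑ i : ZMod 5, ∑ j : ZMod 5, ∑ l : ZMod 5,
      if Far i j ∧ Far j l then (k i : ℝ) * (k l : ℝ) * (2 * p - p ^ 2) ^ k j else 0

/-- P1: general second moment lemma for 5-cycles of cliques. -/
def ST_P1 : Prop := ∀ (n : ℕ) (p : ℝ) (k : ZMod 5 → ℕ), 0 < p → p < 1 → (∀ i, 1 ≤ k i) →
  2 * vk k ≤ n → 1 - gnp n p {G | HasConf G} ≤ 4 * tau n p k + 2 * bad n p k

/-- P2: dense and middle range. -/
def ST_P2 : Prop := ∀ ε η : ℝ, 0 < ε → 0 < η → ∃ (K : ℝ) (n0 : ℕ), ∀ (n : ℕ) (p : ℝ),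
  n0 ≤ n → 0 < p → p ≤ 1 - ε → K ≤ n * p ^ 2 → 1 - gnp n p {G | HasConf G} ≤ η

/-- P4: the range `A ≤ n p`, `n p² ≤ K` (single 5-cycles). -/
def ST_P4 : Prop := ∀ K η : ℝ, 0 < η → ∃ (A : ℝ) (n0 : ℕ), ∀ (n : ℕ) (p : ℝ),
  n0 ≤ n → 0 < p → p < 1 → A ≤ n * p → n * p ^ 2 ≤ K → 1 - gnp n p {G | HasConf G} ≤ η

/-- P5: the range `1 ≤ n p ≤ A` (long cycles). -/
def ST_P5 : Prop := ∀ A η : ℝ, 0 < η → ∃ n0 : ℕ, ∀ (n : ℕ) (p : ℝ),
  n0 ≤ n → 0 < p → p < 1 → 1 ≤ n * p → n * p ≤ A → 1 - gnp n p {G | HasConf G} ≤ η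

/-- the probabilistic half of the theorem -/
def ST_prob : Prop := ∀ (p : ℕ → ℝ) (ε : ℝ), 0 < ε → (∀ᶠ n : ℕ in atTop, 1 / (n : ℝ) < p n) →
  (∀ᶠ n : ℕ in atTop, p n ≤ 1 - ε) →
  Tendsto (fun n : ℕ => gnp n (p n) {G | HasConf G}) atTop (𝓝 1)

end Pool.Agent.Helper93.RC
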