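import Pool.Agent.Helper93.RC.Defs

/-!
# Walls in right-angled Coxeter groups
-/

namespace Pool.Agent.Helper93.RC

open scoped Classical

variable {V : Type*} (Γ : SimpleGraph V)

/-! ### Universal property -/

theorem gen_sq (v : V) : gen Γ v * gen Γ v = 1 := by
  have : (PresentedGroup.mk (racgRels Γ)) (FreeGroup.of v * FreeGroup.of v) = 1 :=
    PresentedGroup.one_of_mem (Or.inl ⟨v, rfl⟩)
  simpa [gen, PresentedGroup.of] using this

theorem gen_inv (v : V) : (gen Γ v)⁻¹ = gen Γ v :=
  inv_eq_of_mul_eq_one_left (gen_sq Γ v)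

theorem gen_comm {u v : V} (h : Γ.Adj u v) : gen Γ u * gen Γ v = gen Γ v * gen Γ u := by
  have : (PresentedGroup.mk (racgRels Γ)) (FreeGroup.of u * FreeGroup.of v *
      (FreeGroup.of u)⁻¹ * (FreeGroup.of v)⁻¹) = 1 :=
    PresentedGroup.one_of_mem (Or.inr ⟨u, v, h, rfl⟩)
  have h2 : gen Γ u * gen Γ v * (gen Γ u)⁻¹ * (gen Γ v)⁻¹ = 1 := by
    simpa [gen, PresentedGroup.of] using this
  rw [mul_inv_eq_one, mul_inv_eq_iff_eq_mul] at h2
  exact h2

variable {Γ}

/-- lifting to a group -/
def lift {H : Type*} [Group H] (f : V → H) (h1 : ∀ v, f v * f v = 1)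
    (h2 : ∀ u v, Γ.Adj u v → f u * f v = f v * f u) : RACG Γ →* H :=
  PresentedGroup.toGroup (f := f) (by
    rintro r (⟨v, rfl⟩ | ⟨u, v, h, rfl⟩)
    · simp [h1]
    · simp [h2 u v h])

@[simp] theorem lift_gen {H : Type*} [Group H] (f : V → H) (h1 : ∀ v, f v * f v = 1)
    (h2 : ∀ u v, Γ.Adj u v → f u * f v = f v * f u) (v : V) :
    lift (Γ := Γ) f h1 h2 (gen Γ v) = f v := by
  simp [lift, gen]

/-- word product -/
def wp (Γ : SimpleGraph V) (l : List V) : RACG Γ := (l.map (gen Γ)).prod

@[simp] theorem wp_nil : wp Γ [] = 1 := rfl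
@[simp] theorem wp_cons (v : V) (l : List V) : wp Γ (v :: l) = gen Γ v * wp Γ l := by
  simp [wp]
@[simp] theorem wp_append (l l' : List V) : wp Γ (l ++ l') = wp Γ l * wp Γ l' := by
  simp [wp]

theorem exists_wp (g : RACG Γ) : ∃ l : List V, wp Γ l = g := by
  have h : g ∈ Subgroup.closure (Set.range (gen Γ)) := by
    have := PresentedGroup.closure_range_of (racgRels Γ)
    rw [show Set.range (gen Γ) = Set.range (PresentedGroup.of : V → RACG Γ) from rfl, this]
    trivial
  induction h using Subgroup.closure_induction with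
  | mem x hx =>
    obtain ⟨v, rfl⟩ := hx
    exact ⟨[v], by simp⟩
  | one => exact ⟨[], rfl⟩
  | mul x y _ _ hx hy =>
    obtain ⟨l, rfl⟩ := hx
    obtain ⟨l', rfl⟩ := hy
    exact ⟨l ++ l', by simp⟩
  | inv x _ hx =>
    obtain ⟨l, rfl⟩ := hx
    clear * -
    refine ⟨l.reverse, ?_⟩
    induction l with
    | nil => simp
    | cons a l ih =>
      rw [List.reverse_cons, wp_append, wp_cons, wp_cons, mul_inv_rev, wp_nil, mul_one,
        gen_inv, ih]

theorem wp_induction {P : RACG Γ → Prop} (h1 : P 1) (h2 : ∀ g v, P g → P (g * gen Γ v))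
    (g : RACG Γ) : P g := by
  obtain ⟨l, rfl⟩ := exists_wp g
  induction l using List.reverseRecOn with
  | nil => exact h1
  | append_singleton l a ih =>
    rw [wp_append, wp_cons, wp_nil, mul_one]
    exact h2 _ _ ih

/-! ### The wall cocycle -/

/-- the involution attached to a generator -/
noncomputable def invol (s : RACG Γ) (hs : s * s = 1) : Equiv.Perm (RACG Γ × ZMod 2) where
  toFun x := (s * x.1 * s, x.2 + if x.1 = s then 1 else 0)
  invFun x := (s * x.1 * s, x.2 + if x.1 = s then 1 else 0)
  left_inv := by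
    rintro ⟨t, e⟩
    have h1 : s * (s * t * s) * s = t := by
      calc s * (s * t * s) * s = (s * s) * t * (s * s) := by group
        _ = t := by rw [hs]; group
    have h2 : (s * t * s = s) ↔ t = s := by
      constructor
      · intro h
        calc t = s * (s * t * s) * s := h1.symm
          _ = s * s * s := by rw [h]
          _ = s := by rw [hs, one_mul]
      · rintro rfl
        rw [hs, one_mul]
    have h3 : ∀ e : ZMod 2, e + 1 + 1 = e := by decide
    simp only [h1, h2]
    split_ifs with h
    · simp [h3]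
    · simp
  right_inv := by
    rintro ⟨t, e⟩
    have h1 : s * (s * t * s) * s = t := by
      calc s * (s * t * s) * s = (s * s) * t * (s * s) := by group
        _ = t := by rw [hs]; group
    have h2 : (s * t * s = s) ↔ t = s := by
      constructor
      · intro h
        calc t = s * (s * t * s) * s := h1.symm
          _ = s * s * s := by rw [h]
          _ = s := by rw [hs, one_mul]
      · rintro rfl
        rw [hs, one_mul]
    have h3 : ∀ e : ZMod 2, e + 1 + 1 = e := by decide
    simp only [h1, h2]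
    split_ifs with h
    · simp [h3]
    · simp

theorem invol_sq (s : RACG Γ) (hs : s * s = 1) : invol s hs * invol s hs = 1 := by
  ext1 x
  exact (invol s hs).left_inv x

theorem invol_comm (s s' : RACG Γ) (hs : s * s = 1) (hs' : s' * s' = 1) (h : s * s' = s' * s) :
    invol s hs * invol s' hs' = invol s' hs' * invol s hs := by
  ext1 ⟨t, e⟩
  have h1 : s * (s' * t * s') * s = s' * (s * t * s) * s' := by
    calc s * (s' * t * s') * s = (s * s') * t * (s' * s) := by group
      _ = (s' * s) * t * (s * s') := by rw [h]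
      _ = _ := by group
  have key : ∀ a b : RACG Γ, a * a = 1 → b * b = 1 → a * b = b * a →
      ((a * t * a = b) ↔ t = b) := by
    intro a b ha hb hab
    constructor
    · intro h
      calc t = (a * a) * t * (a * a) := by rw [ha]; group
        _ = a * (a * t * a) * a := by group
        _ = a * b * a := by rw [h]
        _ = b * (a * a) := by rw [hab]; group
        _ = b := by rw [ha, mul_one]
    · rintro rfl
      calc a * t * a = t * (a * a) := by rw [hab]; group
        _ = t := by rw [ha, mul_one]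
  have h2 := key s' s hs' hs h.symm
  have h3 := key s s' hs hs' h
  show (s * (s' * t * s') * s, e + (if t = s' then (1 : ZMod 2) else 0) +
      if s' * t * s' = s then (1 : ZMod 2) else 0) =
    (s' * (s * t * s) * s', e + (if t = s then (1 : ZMod 2) else 0) +
      if s * t * s = s' then (1 : ZMod 2) else 0)
  rw [h1, h2, h3]
  congr 1
  ring

/-- the action on `RACG Γ × ZMod 2` -/
noncomputable def act (Γ : SimpleGraph V) : RACG Γ →* Equiv.Perm (RACG Γ × ZMod 2) :=
  lift (fun v => invol (gen Γ v) (gen_sq Γ v)) (fun v => invol_sq _ _)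
    (fun u v h => invol_comm _ _ _ _ (gen_comm Γ h))

/-- `N g t = 1` iff the wall `t` separates `1` from `g`. -/
noncomputable def N (g t : RACG Γ) : ZMod 2 := (act Γ g⁻¹ (t, 0)).2

theorem act_eq (g t : RACG Γ) : ∀ e, act Γ g⁻¹ (t, e) = (g⁻¹ * t * g, e + N g t) := by
  revert t
  refine wp_induction (P := fun g => ∀ t e, act Γ g⁻¹ (t, e) = (g⁻¹ * t * g, e + N g t)) ?_ ?_ g
  · intro t e
    simp [N]
  · intro g v ih t e
    have h0 : ∀ e, act Γ (g * gen Γ v)⁻¹ (t, e) = (gen Γ v * (g⁻¹ * t * g) * gen Γ v,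
        e + N g t + if g⁻¹ * t * g = gen Γ v then 1 else 0) := by
      intro e
      rw [mul_inv_rev, map_mul, Equiv.Perm.mul_apply, gen_inv, ih]
      simp only [act, lift_gen]
      rfl
    have h1 : N (g * gen Γ v) t = N g t + if g⁻¹ * t * g = gen Γ v then 1 else 0 := by
      rw [N, h0]
      simp
    rw [h0, h1]
    ext1
    · show gen Γ v * (g⁻¹ * t * g) * gen Γ v = (g * gen Γ v)⁻¹ * t * (g * gen Γ v)
      rw [mul_inv_rev, gen_inv]
      group
    · show e + N g t + _ = e + (N g t + _)
      ring

@[simp] theorem N_one (t : RACG Γ) : N 1 t = 0 := by simp [N]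

theorem N_mul (g h t : RACG Γ) : N (g * h) t = N g t + N h (g⁻¹ * t * g) := by
  have h1 : act Γ (g * h)⁻¹ (t, 0) = act Γ h⁻¹ (act Γ g⁻¹ (t, 0)) := by
    rw [mul_inv_rev, map_mul, Equiv.Perm.mul_apply]
  rw [N, h1, act_eq, act_eq]
  simp

theorem N_gen (v : V) (t : RACG Γ) : N (gen Γ v) t = if t = gen Γ v then 1 else 0 := by
  rw [N, gen_inv]
  simp only [act, lift_gen]
  show 0 + _ = _
  rw [zero_add]

theorem N_mul_gen (g : RACG Γ) (v : V) (t : RACG Γ) :
    N (g * gen Γ v) t = N g t + if t = g * gen Γ v * g⁻¹ then 1 else 0 := by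
  rw [N_mul, N_gen]
  congr 2
  apply propext
  constructor
  · intro h
    rw [← h]
    group
  · rintro rfl
    group

end Pool.Agent.Helper93.RC
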