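import Pool.Agent.Helper93.RC.Spec

/-!
# Reduced words, lengths, types and carriers in right-angled Coxeter groups
-/

namespace Pool.Agent.Helper93.RC

open scoped Classical

variable {V : Type*} {Γ : SimpleGraph V}

theorem z2_add_self (a : ZMod 2) : a + a = 0 := by
  revert a; decide

theorem z2_cases (a : ZMod 2) : a = 0 ∨ a = 1 := by
  revert a; decide

/-! ### basic rules for `N` -/

/-- reflections -/
def IsRef (t : RACG Γ) : Prop := ∃ g v, t = g * gen Γ v * g⁻¹

theorem IsRef.mul_self {t : RACG Γ} (h : IsRef t) : t * t = 1 := by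
  obtain ⟨g, v, rfl⟩ := h
  calc g * gen Γ v * g⁻¹ * (g * gen Γ v * g⁻¹) = g * (gen Γ v * gen Γ v) * g⁻¹ := by group
    _ = 1 := by rw [gen_sq]; group

theorem IsRef.inv {t : RACG Γ} (h : IsRef t) : t⁻¹ = t := inv_eq_of_mul_eq_one_left h.mul_self

theorem IsRef.conj {t : RACG Γ} (h : IsRef t) (g : RACG Γ) : IsRef (g * t * g⁻¹) := by
  obtain ⟨k, v, rfl⟩ := h
  exact ⟨g * k, v, by group⟩

theorem isRef_gen (v : V) : IsRef (gen Γ v) := ⟨1, v, by simp⟩

theorem N_eq_zero {t : RACG Γ} (h : ¬ IsRef t) (g : RACG Γ) : N g t = 0 := by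
  refine wp_induction (P := fun g => N g t = 0) (N_one t) ?_ g
  intro g v ih
  rw [N_mul_gen, ih, if_neg, add_zero]
  intro hh
  exact h ⟨g, v, hh⟩

theorem N_inv (g t : RACG Γ) : N g⁻¹ t = N g (g * t * g⁻¹) := by
  have h := N_mul g⁻¹ g t
  rw [inv_mul_cancel, N_one, inv_inv] at h
  have h2 := z2_add_self (N g (g * t * g⁻¹))
  have : N g⁻¹ t + N g (g * t * g⁻¹) + N g (g * t * g⁻¹) = 0 + N g (g * t * g⁻¹) := by rw [← h]
  rw [add_assoc, h2, add_zero, zero_add] at this
  exact this

/-- `N (x⁻¹ y) (x⁻¹ t x) = N x t + N y t`. -/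
theorem N_rel (x y t : RACG Γ) : N (x⁻¹ * y) (x⁻¹ * t * x) = N x t + N y t := by
  have h := N_mul x (x⁻¹ * y) t
  rw [mul_inv_cancel_left] at h
  rw [h, ← add_assoc, z2_add_self, zero_add]

theorem N_gen_mul (v : V) (g t : RACG Γ) :
    N (gen Γ v * g) t = (if t = gen Γ v then 1 else 0) + N g (gen Γ v * t * gen Γ v) := by
  rw [N_mul, N_gen, gen_inv]

theorem N_gen_mul_self (v : V) (g : RACG Γ) : N (gen Γ v * g) (gen Γ v) = 1 + N g (gen Γ v) := by
  rw [N_gen_mul, if_pos rfl, gen_sq, one_mul]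

/-- for a reflection `t`: `t * g` is on the other side of `t`. -/
theorem N_ref_mul {t : RACG Γ} (ht : IsRef t) (g : RACG Γ) : N (t * g) t = 1 + N g t := by
  have h1 : N t t = 1 := by
    obtain ⟨k, v, rfl⟩ := ht
    have e : k * gen Γ v * k⁻¹ = (k * gen Γ v) * k⁻¹ := rfl
    rw [N_mul (k * gen Γ v) k⁻¹, N_mul_gen, if_pos rfl, N_inv]
    have : (k * ((k * gen Γ v)⁻¹ * (k * gen Γ v * k⁻¹) * (k * gen Γ v)) * k⁻¹) =
        k * gen Γ v * k⁻¹ := by group
    rw [this, add_comm (N k _) 1, add_assoc, z2_add_self, add_zero]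
  rw [N_mul, h1, ht.inv, ht.mul_self, one_mul]

/-- the wall of the `k`-th letter of a word -/
noncomputable def wall (l : List V) (k : ℕ) (hk : k < l.length) : RACG Γ :=
  wp Γ (l.take k) * gen Γ l[k] * (wp Γ (l.take k))⁻¹

theorem wp_take_succ (l : List V) (k : ℕ) (hk : k < l.length) :
    wp Γ (l.take (k + 1)) = wp Γ (l.take k) * gen Γ l[k] := by
  rw [List.take_succ_eq_append_getElem hk, wp_append, wp_cons, wp_nil, mul_one]

theorem N_take (l : List V) (t : RACG Γ) (n : ℕ) (hn : n ≤ l.length) :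
    N (wp Γ (l.take n)) t =
      ∑ k : Fin n, if t = wall (Γ := Γ) l k (lt_of_lt_of_le k.2 hn) then (1 : ZMod 2) else 0 := by
  induction n with
  | zero => simp
  | succ n ih =>
    rw [wp_take_succ l n (by omega), N_mul_gen, ih (by omega), Fin.sum_univ_castSucc]
    rfl

/-- reduced words -/
def Red (Γ : SimpleGraph V) (l : List V) : Prop := ∀ l', wp Γ l' = wp Γ l → l.length ≤ l'.length

theorem exists_red (g : RACG Γ) : ∃ l, wp Γ l = g ∧ Red Γ l := by
  have h : ∃ n, ∃ l : List V, wp Γ l = g ∧ l.length = n := by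
    obtain ⟨l, hl⟩ := exists_wp g
    exact ⟨_, l, hl, rfl⟩
  obtain ⟨l, hl, hn⟩ := Nat.find_spec h
  refine ⟨l, hl, fun l' hl' => ?_⟩
  rw [hn]
  exact Nat.find_min' h ⟨l', hl'.trans hl, rfl⟩

/-- deleting one letter multiplies by its wall -/
theorem wall_mul (l : List V) (k : ℕ) (hk : k < l.length) :
    wall (Γ := Γ) l k hk * wp Γ l = wp Γ (l.take k ++ l.drop (k + 1)) := by
  have h : wp Γ l = wp Γ (l.take k) * (gen Γ l[k] * wp Γ (l.drop (k + 1))) := by
    conv_lhs => rw [← List.take_append_drop k l, wp_append, List.drop_eq_getElem_cons hk, wp_cons]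
  rw [h, wall, wp_append]
  calc wp Γ (l.take k) * gen Γ l[k] * (wp Γ (l.take k))⁻¹ *
        (wp Γ (l.take k) * (gen Γ l[k] * wp Γ (l.drop (k + 1))))
      = wp Γ (l.take k) * (gen Γ l[k] * gen Γ l[k]) * wp Γ (l.drop (k + 1)) := by group
    _ = _ := by rw [gen_sq, mul_one]

/-- if two walls of a word coincide the word is not reduced -/
theorem Red.wall_ne {l : List V} (hl : Red Γ l) {a b : ℕ} (ha : a < l.length) (hb : b < l.length)
    (hab : a < b) : wall (Γ := Γ) l a ha ≠ wall l b hb := by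
  intro h
  -- delete both letters
  have h1 : wall (Γ := Γ) l a ha * (wall (Γ := Γ) l b hb * wp Γ l) = wp Γ l := by
    rw [h, ← mul_assoc]
    have : wall (Γ := Γ) l b hb * wall (Γ := Γ) l b hb = 1 := IsRef.mul_self ⟨_, _, rfl⟩
    rw [this, one_mul]
  rw [wall_mul] at h1
  set l' := l.take b ++ l.drop (b + 1) with hl'
  have hlen : l'.length = l.length - 1 := by
    rw [hl', List.length_append, List.length_take, List.length_drop]
    omega
  have ha' : a < l'.length := by omega
  have h2 : wall (Γ := Γ) l' a ha' = wall l a ha := by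
    unfold wall
    have e1 : l'.take a = l.take a := by
      rw [hl', List.take_append_of_le_length (by rw [List.length_take]; omega), List.take_take]
      congr 1
      omega
    have e2 : l'[a] = l[a] := by
      simp only [hl']
      rw [List.getElem_append_left (by rw [List.length_take]; omega), List.getElem_take]
    rw [e1, e2]
  rw [← h2, wall_mul] at h1
  have h3 := hl _ h1
  rw [List.length_append, List.length_take, List.length_drop] at h3
  omega

theorem N_of_nodup {l : List V}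
    (hl : ∀ a b (ha : a < l.length) (hb : b < l.length), a < b →
      wall (Γ := Γ) l a ha ≠ wall l b hb) (n : ℕ) (hn : n ≤ l.length) (t : RACG Γ) :
    N (wp Γ (l.take n)) t = 1 ↔ ∃ k, ∃ hk : k < n, t = wall l k (lt_of_lt_of_le hk hn) := by
  rw [N_take l t n hn]
  constructor
  · intro h
    by_contra hcon
    push Not at hcon
    rw [Finset.sum_eq_zero] at h
    · exact absurd h (by decide)
    · intro k _
      rw [if_neg (hcon k k.2)]
  · rintro ⟨k, hk, rfl⟩
    rw [Finset.sum_eq_single (⟨k, hk⟩ : Fin n)]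
    · rw [if_pos rfl]
    · intro b _ hb
      rw [if_neg]
      intro hh
      rcases lt_trichotomy k b.1 with h | h | h
      · exact hl _ _ _ _ h hh
      · exact hb (Fin.ext h.symm)
      · exact hl _ _ _ _ h hh.symm
    · intro h
      exact absurd (Finset.mem_univ _) h

theorem Red.N_iff {l : List V} (hl : Red Γ l) (n : ℕ) (hn : n ≤ l.length) (t : RACG Γ) :
    N (wp Γ (l.take n)) t = 1 ↔ ∃ k, ∃ hk : k < n, t = wall l k (lt_of_lt_of_le hk hn) :=
  N_of_nodup (fun _ _ ha hb hab => hl.wall_ne ha hb hab) n hn t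

theorem Red.N_iff' {l : List V} (hl : Red Γ l) (t : RACG Γ) :
    N (wp Γ l) t = 1 ↔ ∃ k, ∃ hk : k < l.length, t = wall l k hk := by
  have h := hl.N_iff l.length le_rfl t
  rwa [List.take_length] at h

/-- the support of a word -/
theorem ncard_supp_of_nodup {l : List V}
    (hl : ∀ a b (ha : a < l.length) (hb : b < l.length), a < b →
      wall (Γ := Γ) l a ha ≠ wall l b hb) :
    {t : RACG Γ | N (wp Γ l) t = 1}.ncard = l.length := by
  have h : {t : RACG Γ | N (wp Γ l) t = 1} =
      Set.range (fun k : Fin l.length => wall (Γ := Γ) l k k.2) := by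
    ext t
    have := N_of_nodup hl l.length le_rfl t
    rw [List.take_length] at this
    rw [Set.mem_setOf_eq, this]
    constructor
    · rintro ⟨k, hk, rfl⟩
      exact ⟨⟨k, hk⟩, rfl⟩
    · rintro ⟨k, rfl⟩
      exact ⟨k, k.2, rfl⟩
  rw [h, ← Set.image_univ, Set.ncard_image_of_injective _ ?_, Set.ncard_univ, Nat.card_eq_fintype_card,
    Fintype.card_fin]
  intro a b hab
  rcases lt_trichotomy a.1 b.1 with h | h | h
  · exact absurd hab (hl _ _ _ _ h)
  · exact Fin.ext h
  · exact absurd hab.symm (hl _ _ _ _ h)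

theorem supp_finite (g : RACG Γ) : {t : RACG Γ | N g t = 1}.Finite := by
  obtain ⟨l, rfl, hl⟩ := exists_red g
  refine (Set.finite_range (fun k : Fin l.length => wall (Γ := Γ) l k k.2)).subset ?_
  intro t ht
  obtain ⟨k, hk, rfl⟩ := (hl.N_iff' t).1 ht
  exact ⟨⟨k, hk⟩, rfl⟩

theorem Red.ncard {l : List V} (hl : Red Γ l) : {t : RACG Γ | N (wp Γ l) t = 1}.ncard = l.length :=
  ncard_supp_of_nodup (fun _ _ ha hb hab => hl.wall_ne ha hb hab)

/-- length -/
noncomputable def len (g : RACG Γ) : ℕ := {t : RACG Γ | N g t = 1}.ncard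

theorem len_le (l : List V) : len (wp Γ l) ≤ l.length := by
  obtain ⟨l', h', hl'⟩ := exists_red (wp Γ l)
  rw [len, ← h', hl'.ncard]
  exact hl' _ h'.symm

theorem red_iff_len {l : List V} : Red Γ l ↔ len (wp Γ l) = l.length := by
  constructor
  · intro h
    exact h.ncard
  · intro h l' hl'
    rw [← h, ← hl']
    exact len_le l'

theorem red_of_nodup {l : List V}
    (hl : ∀ a b (ha : a < l.length) (hb : b < l.length), a < b →
      wall (Γ := Γ) l a ha ≠ wall l b hb) : Red Γ l :=
  red_iff_len.2 (ncard_supp_of_nodup hl)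

theorem not_red_exists {l : List V} (h : ¬ Red Γ l) :
    ∃ a b, ∃ (ha : a < l.length) (hb : b < l.length), a < b ∧
      wall (Γ := Γ) l a ha = wall l b hb := by
  by_contra hcon
  push Not at hcon
  exact h (red_of_nodup hcon)

/-- strong exchange -/
theorem len_ref_mul_lt {g t : RACG Γ} (h : N g t = 1) : len (t * g) < len g := by
  obtain ⟨l, rfl, hl⟩ := exists_red g
  obtain ⟨k, hk, rfl⟩ := (hl.N_iff' t).1 h
  rw [wall_mul, red_iff_len.1 hl]
  refine lt_of_le_of_lt (len_le _) ?_
  rw [List.length_append, List.length_take, List.length_drop]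
  omega

theorem len_one : len (1 : RACG Γ) = 0 := by
  have := len_le (Γ := Γ) []
  simpa using this

theorem exists_descent {g : RACG Γ} (h : g ≠ 1) : ∃ v, N g (gen Γ v) = 1 := by
  obtain ⟨l, rfl, hl⟩ := exists_red g
  cases l with
  | nil => exact absurd rfl h
  | cons v l =>
    refine ⟨v, (hl.N_iff' _).2 ⟨0, by simp, ?_⟩⟩
    simp [wall]

/-- `len (gen v * g) < len g` for a left descent. -/
theorem len_gen_mul_lt {g : RACG Γ} {v : V} (h : N g (gen Γ v) = 1) : len (gen Γ v * g) < len g :=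
  len_ref_mul_lt h

/-! ### types -/

/-- abelianisation -/
noncomputable def ab (Γ : SimpleGraph V) : RACG Γ →* Multiplicative (V → ZMod 2) :=
  lift (fun v => Multiplicative.ofAdd (Pi.single v 1))
    (fun v => by
      rw [← ofAdd_add, ← Pi.single_add, show (1 : ZMod 2) + 1 = 0 from by decide, Pi.single_zero]
      rfl)
    (fun u v _ => mul_comm _ _)

theorem type_unique {g h : RACG Γ} {u v : V} (e : g * gen Γ u * g⁻¹ = h * gen Γ v * h⁻¹) :
    u = v := by
  have h1 := congrArg (ab Γ) e
  rw [map_mul, map_mul, map_mul, map_mul, map_inv, map_inv, mul_comm (ab Γ g), mul_inv_cancel_right,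
    mul_comm (ab Γ h), mul_inv_cancel_right, ab, lift_gen, lift_gen] at h1
  have h2 : (Pi.single u 1 : V → ZMod 2) = Pi.single v 1 := Multiplicative.ofAdd.injective h1
  have h3 := congrFun h2 u
  rw [Pi.single_eq_same] at h3
  by_contra hne
  rw [Pi.single_eq_of_ne hne] at h3
  exact absurd h3 (by decide)

theorem gen_injective : Function.Injective (gen Γ) := by
  intro u v h
  refine type_unique (Γ := Γ) (g := 1) (h := 1) ?_
  rw [h]

end Pool.Agent.Helper93.RC
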