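import Pool.Agent.Helper93.RC.Walls2

/-!
# Commuting descents, carriers, centralizers, and the wall structure of the Cayley graph
-/

namespace Pool.Agent.Helper93.RC

open scoped Classical

variable {V : Type*} {Γ : SimpleGraph V}

/-! ### two left descents commute -/

/-- alternating word starting with `u` -/
def alt (u v : V) : ℕ → List V
  | 0 => []
  | n + 1 => u :: alt v u n

/-- the test homomorphism to permutations of `ℤ` -/
noncomputable def testHom {u v : V} (huv : u ≠ v) (hna : ¬ Γ.Adj u v) :
    RACG Γ →* Equiv.Perm ℤ :=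
  lift (fun w => if w = u then Equiv.neg ℤ else if w = v then (Equiv.subLeft (1 : ℤ)) else 1)
    (fun w => by
      by_cases h1 : w = u
      · rw [if_pos h1]
        ext x
        simp
      · rw [if_neg h1]
        by_cases h2 : w = v
        · rw [if_pos h2]
          ext x
          simp
        · rw [if_neg h2, one_mul])
    (fun a b hab => by
      by_cases h1 : a = u
      · by_cases h2 : b = u
        · rw [h1, h2]
        · by_cases h3 : b = v
          · subst h1; subst h3
            exact absurd hab hna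
          · rw [if_neg h2, if_neg h3, one_mul, mul_one]
      · rw [if_neg h1]
        by_cases h1' : a = v
        · by_cases h2 : b = v
          · rw [h1', h2, if_neg (Ne.symm huv)]
          · by_cases h3 : b = u
            · subst h1'; subst h3
              exact absurd hab.symm hna
            · rw [if_neg h2, if_neg h3, one_mul, mul_one]
        · rw [if_neg h1', one_mul, mul_one])

theorem testHom_u {u v : V} (huv : u ≠ v) (hna : ¬ Γ.Adj u v) (x : ℤ) :
    testHom huv hna (gen Γ u) x = -x := by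
  simp [testHom]

theorem testHom_v {u v : V} (huv : u ≠ v) (hna : ¬ Γ.Adj u v) (x : ℤ) :
    testHom huv hna (gen Γ v) x = 1 - x := by
  simp [testHom, huv.symm]

theorem testHom_alt {u v : V} (huv : u ≠ v) (hna : ¬ Γ.Adj u v) :
    ∀ n : ℕ, ∀ x : ℤ,
      (testHom huv hna (wp Γ (alt u v (2 * n))) x = x - n ∧
        testHom huv hna (wp Γ (alt u v (2 * n + 1))) x = - x - n) := by
  intro n
  induction n with
  | zero =>
    intro x
    constructor
    · simp [alt]
    · simp [alt, testHom_u]
  | succ n ih =>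
    have h1 : ∀ x, testHom huv hna (wp Γ (alt u v (2 * (n + 1)))) x = x - (n + 1 : ℕ) := by
      intro x
      have e : alt u v (2 * (n + 1)) = u :: v :: alt u v (2 * n) := rfl
      rw [e, wp_cons, wp_cons, map_mul, map_mul, Equiv.Perm.mul_apply, Equiv.Perm.mul_apply,
        testHom_u, testHom_v, (ih x).1]
      push_cast
      ring
    intro x
    refine ⟨h1 x, ?_⟩
    have e : alt u v (2 * (n + 1) + 1) = u :: v :: alt u v (2 * n + 1) := rfl
    rw [e, wp_cons, wp_cons, map_mul, map_mul, Equiv.Perm.mul_apply, Equiv.Perm.mul_apply,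
        testHom_u, testHom_v, (ih x).2]
    push_cast
    ring

theorem alt_length (u v : V) (n : ℕ) : (alt u v n).length = n := by
  induction n generalizing u v with
  | zero => rfl
  | succ n ih => simp [alt, ih]

/-- inverse of alternating words -/
theorem alt_even_concat (u v : V) (n : ℕ) : alt u v (2 * n) ++ [u] = alt u v (2 * n + 1) := by
  induction n with
  | zero => rfl
  | succ n ih =>
    have e : alt u v (2 * (n + 1)) = u :: v :: alt u v (2 * n) := rfl
    have e' : alt u v (2 * (n + 1) + 1) = u :: v :: alt u v (2 * n + 1) := rfl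
    rw [e, e', ← ih]
    rfl

theorem alt_odd_concat (u v : V) (n : ℕ) :
    alt u v (2 * n + 1) ++ [v] = alt u v (2 * (n + 1)) := by
  induction n with
  | zero => rfl
  | succ n ih =>
    have e : alt u v (2 * (n + 1) + 1) = u :: v :: alt u v (2 * n + 1) := rfl
    have e' : alt u v (2 * (n + 1 + 1)) = u :: v :: alt u v (2 * (n + 1)) := rfl
    rw [e, e', ← ih]
    rfl

/-- `gen v` is not an inversion of an alternating word starting with `u`. -/
theorem N_alt {u v : V} (huv : u ≠ v) (hna : ¬ Γ.Adj u v) (n : ℕ) :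
    N (wp Γ (alt u v n)) (gen Γ v) = 0 := by
  induction n with
  | zero => simp [alt]
  | succ n ih =>
    rcases Nat.even_or_odd' n with ⟨k, hk | hk⟩
    · subst hk
      rw [← alt_even_concat, wp_append, wp_cons, wp_nil, mul_one, N_mul_gen, ih, if_neg, add_zero]
      intro h
      rw [eq_mul_inv_iff_mul_eq] at h
      have h1 := congrArg (testHom huv hna) h
      rw [map_mul, map_mul] at h1
      have h2 := congrArg (fun f : Equiv.Perm ℤ => f 0) h1
      simp only [Equiv.Perm.mul_apply] at h2
      rw [(testHom_alt huv hna k 0).1, testHom_v, testHom_u, (testHom_alt huv hna k _).1] at h2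
      omega
    · subst hk
      rw [show 2 * k + 1 + 1 = 2 * (k + 1) from by ring, ← alt_odd_concat, wp_append, wp_cons,
        wp_nil, mul_one, N_mul_gen, ih, if_neg, add_zero]
      intro h
      rw [eq_mul_inv_iff_mul_eq] at h
      have h1 := congrArg (testHom huv hna) h
      rw [map_mul, map_mul] at h1
      have h2 := congrArg (fun f : Equiv.Perm ℤ => f 0) h1
      simp only [Equiv.Perm.mul_apply] at h2
      rw [(testHom_alt huv hna k 0).2, testHom_v, testHom_v, (testHom_alt huv hna k _).2] at h2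
      omega

/-- Two distinct left descents commute. -/
theorem descents_adj {g : RACG Γ} {u v : V} (huv : u ≠ v) (hu : N g (gen Γ u) = 1)
    (hv : N g (gen Γ v) = 1) : Γ.Adj u v := by
  by_contra hna
  -- choose an alternating word `d` with `len (d⁻¹ g)` minimal
  have hex : ∃ n, ∃ d : List V, ((∃ k, d = alt u v k) ∨ (∃ k, d = alt v u k)) ∧
      len ((wp Γ d)⁻¹ * g) = n := ⟨_, [], Or.inl ⟨0, rfl⟩, rfl⟩
  obtain ⟨d, hd, hmin⟩ := Nat.find_spec hex
  have hle : ∀ d' : List V, ((∃ k, d' = alt u v k) ∨ (∃ k, d' = alt v u k)) →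
      len ((wp Γ d)⁻¹ * g) ≤ len ((wp Γ d')⁻¹ * g) := by
    intro d' hd'
    rw [hmin]
    exact Nat.find_min' hex ⟨d', hd', rfl⟩
  -- left multiplication by a generator
  have hstep : ∀ w, w = u ∨ w = v → ∃ d' : List V, ((∃ k, d' = alt u v k) ∨
      (∃ k, d' = alt v u k)) ∧ wp Γ d' = gen Γ w * wp Γ d := by
    intro w hw
    rcases hw with rfl | rfl
    · rcases hd with ⟨k, rfl⟩ | ⟨k, rfl⟩
      · cases k with
        | zero => exact ⟨alt w v 1, Or.inl ⟨1, rfl⟩, rfl⟩
        | succ k =>
          refine ⟨alt v w k, Or.inr ⟨k, rfl⟩, ?_⟩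
          show _ = gen Γ w * wp Γ (w :: alt v w k)
          rw [wp_cons, ← mul_assoc, gen_sq, one_mul]
      · exact ⟨alt w v (k + 1), Or.inl ⟨k + 1, rfl⟩, rfl⟩
    · rcases hd with ⟨k, rfl⟩ | ⟨k, rfl⟩
      · exact ⟨alt w u (k + 1), Or.inr ⟨k + 1, rfl⟩, rfl⟩
      · cases k with
        | zero => exact ⟨alt w u 1, Or.inr ⟨1, rfl⟩, rfl⟩
        | succ k =>
          refine ⟨alt u w k, Or.inl ⟨k, rfl⟩, ?_⟩
          show _ = gen Γ w * wp Γ (w :: alt u w k)
          rw [wp_cons, ← mul_assoc, gen_sq, one_mul]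
  have hN : ∀ w, w = u ∨ w = v → N g (gen Γ w) = N (wp Γ d) (gen Γ w) := by
    intro w hw
    have h1 := N_rel (wp Γ d) g (gen Γ w)
    have h0 : N ((wp Γ d)⁻¹ * g) ((wp Γ d)⁻¹ * gen Γ w * wp Γ d) = 0 := by
      rcases z2_cases (N ((wp Γ d)⁻¹ * g) ((wp Γ d)⁻¹ * gen Γ w * wp Γ d)) with h | h
      · exact h
      · exfalso
        have h2 := len_ref_mul_lt h
        obtain ⟨d', hd', e⟩ := hstep w hw
        have h3 := hle d' hd'
        have h4 : (wp Γ d')⁻¹ * g = (wp Γ d)⁻¹ * gen Γ w * wp Γ d * ((wp Γ d)⁻¹ * g) := by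
          rw [e, mul_inv_rev, gen_inv]
          group
        rw [h4] at h3
        omega
    rw [h0] at h1
    rcases z2_cases (N (wp Γ d) (gen Γ w)) with h | h <;>
      rcases z2_cases (N g (gen Γ w)) with h' | h' <;> rw [h, h'] at h1 ⊢ <;>
      first | rfl | (exact absurd h1 (by decide))
  rcases hd with ⟨k, rfl⟩ | ⟨k, rfl⟩
  · have := hN v (Or.inr rfl)
    rw [hv, N_alt huv hna] at this
    exact absurd this (by decide)
  · have := hN u (Or.inl rfl)
    rw [hu, N_alt huv.symm (fun h => hna h.symm)] at this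
    exact absurd this (by decide)

/-! ### carriers -/

theorem Red.tail {c : V} {l : List V} (h : Red Γ (c :: l)) : Red Γ l := by
  intro l' hl'
  have := h (c :: l') (by rw [wp_cons, wp_cons, hl'])
  simpa using this

theorem Red.N_head {c : V} {l : List V} (h : Red Γ (c :: l)) : N (wp Γ (c :: l)) (gen Γ c) = 1 :=
  (h.N_iff' _).2 ⟨0, by simp, by simp [wall]⟩

/-- If `gen u * w = w * gen v` and `gen u` is not an inversion of `w` then every letter of a
reduced word of `w` is adjacent to `u`, and `u = v`. -/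
theorem carrier_word {u v : V} {l : List V} (hl : Red Γ l)
    (h : gen Γ u * wp Γ l = wp Γ l * gen Γ v) (hN : N (wp Γ l) (gen Γ u) = 0) :
    u = v ∧ ∀ c ∈ l, Γ.Adj u c := by
  induction l with
  | nil =>
    refine ⟨gen_injective (Γ := Γ) ?_, by simp⟩
    simpa using h
  | cons c l ih =>
    have hcu : c ≠ u := by
      rintro rfl
      rw [hl.N_head] at hN
      exact absurd hN (by decide)
    have h1 : N (gen Γ u * wp Γ (c :: l)) (gen Γ u) = 1 := by
      rw [N_gen_mul_self, hN, add_zero]
    have h2 : N (gen Γ u * wp Γ (c :: l)) (gen Γ c) = 1 := by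
      rw [h, N_mul_gen, hl.N_head, if_neg, add_zero]
      intro hh
      have : gen Γ c = gen Γ u := by
        rw [hh, ← h, mul_inv_cancel_right]
      exact hcu (gen_injective this)
    have hadj : Γ.Adj u c := descents_adj (Ne.symm hcu) h1 h2
    have h3 : gen Γ u * wp Γ l = wp Γ l * gen Γ v := by
      rw [wp_cons, ← mul_assoc, gen_comm Γ hadj, mul_assoc, mul_assoc] at h
      exact mul_left_cancel h
    have h4 : N (wp Γ l) (gen Γ u) = 0 := by
      rw [wp_cons, N_gen_mul, if_neg (fun hh => hcu (gen_injective hh).symm), zero_add,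
        gen_comm Γ hadj.symm, mul_assoc, gen_sq, mul_one] at hN
      exact hN
    obtain ⟨h5, h6⟩ := ih hl.tail h3 h4
    refine ⟨h5, ?_⟩
    intro c' hc'
    rcases List.mem_cons.1 hc' with rfl | hc'
    · exact hadj
    · exact h6 c' hc'

/-- The set of letters of a reduced word depends only on the group element. -/
theorem mem_iff_type {l : List V} (hl : Red Γ l) (c : V) :
    c ∈ l ↔ ∃ g, N (wp Γ l) (g * gen Γ c * g⁻¹) = 1 := by
  constructor
  · intro h
    obtain ⟨k, hk, rfl⟩ := List.getElem_of_mem h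
    exact ⟨wp Γ (l.take k), (hl.N_iff' _).2 ⟨k, hk, rfl⟩⟩
  · rintro ⟨g, hg⟩
    obtain ⟨k, hk, e⟩ := (hl.N_iff' _).1 hg
    have := type_unique e
    rw [this]
    exact List.getElem_mem hk

/-- The set of letters of a group element. -/
def supp (g : RACG Γ) : Set V := {c | ∃ k, N g (k * gen Γ c * k⁻¹) = 1}

theorem Red.mem_supp {l : List V} (hl : Red Γ l) (c : V) : c ∈ supp (wp Γ l) ↔ c ∈ l :=
  (mem_iff_type hl c).symm

/-- commutation with letters -/
theorem gen_comm_wp {u : V} {l : List V} (h : ∀ c ∈ l, Γ.Adj u c ∨ c = u) :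
    gen Γ u * wp Γ l = wp Γ l * gen Γ u := by
  induction l with
  | nil => simp
  | cons c l ih =>
    rw [wp_cons, ← mul_assoc]
    have h1 : gen Γ u * gen Γ c = gen Γ c * gen Γ u := by
      rcases h c (by simp) with h1 | rfl
      · exact gen_comm Γ h1
      · rfl
    rw [h1, mul_assoc, ih (fun c' hc' => h c' (by simp [hc'])), mul_assoc]

/-- centralizer of a generator -/
theorem centralizer_supp {g : RACG Γ} {u : V} (h : gen Γ u * g = g * gen Γ u) :
    ∀ c ∈ supp g, Γ.Adj u c ∨ c = u := by
  rcases z2_cases (N g (gen Γ u)) with h0 | h0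
  · obtain ⟨l, rfl, hl⟩ := exists_red g
    intro c hc
    left
    exact (carrier_word hl h h0).2 c ((hl.mem_supp c).1 hc)
  · -- replace `g` by `gen u * g`
    obtain ⟨l, hlg, hl⟩ := exists_red (gen Γ u * g)
    have h1 : gen Γ u * wp Γ l = wp Γ l * gen Γ u := by
      rw [hlg, mul_assoc, ← h]
    have h2 : N (wp Γ l) (gen Γ u) = 0 := by
      rw [hlg, N_gen_mul_self, h0]
      decide
    have h3 := (carrier_word hl h1 h2).2
    rintro c ⟨k, hk⟩
    by_cases hcu : c = u
    · exact Or.inr hcu
    left
    refine h3 c ((hl.mem_supp c).1 ⟨gen Γ u * k, ?_⟩)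
    rw [hlg, N_gen_mul, if_neg]
    · rw [zero_add, mul_inv_rev, gen_inv]
      have : gen Γ u * (gen Γ u * k * gen Γ c * (k⁻¹ * gen Γ u)) * gen Γ u =
          (gen Γ u * gen Γ u) * (k * gen Γ c * k⁻¹) * (gen Γ u * gen Γ u) := by group
      rw [this, gen_sq, one_mul, mul_one]
      exact hk
    · intro hh
      have := type_unique (Γ := Γ) (g := gen Γ u * k) (h := 1) (u := c) (v := u)
        (by rw [hh]; simp)
      exact hcu this

/-- criterion for non-reducedness -/
theorem not_red_letters {l : List V} (h : ¬ Red Γ l) :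
    ∃ a b, ∃ (ha : a < l.length) (hb : b < l.length), a < b ∧ l[a] = l[b] ∧
      ∀ c (hc : c < l.length), a < c → c < b → Γ.Adj l[a] l[c] := by
  obtain ⟨a0, b0, ha0, hb0, hab0, hw0⟩ := not_red_exists h
  have hex : ∃ n, ∃ a b, ∃ (ha : a < l.length) (hb : b < l.length), a < b ∧
      wall (Γ := Γ) l a ha = wall l b hb ∧ b - a = n := ⟨_, a0, b0, ha0, hb0, hab0, hw0, rfl⟩
  obtain ⟨a, b, ha, hb, hab, hw, hn⟩ := Nat.find_spec hex
  have hmin : ∀ a' b' (ha' : a' < l.length) (hb' : b' < l.length), a' < b' →
      wall (Γ := Γ) l a' ha' = wall l b' hb' → b - a ≤ b' - a' := by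
    intro a' b' ha' hb' hab' hw'
    rw [hn]
    exact Nat.find_min' hex ⟨a', b', ha', hb', hab', hw', rfl⟩
  refine ⟨a, b, ha, hb, hab, ?_⟩
  -- the subword between
  set s : List V := (l.drop a).take (b - a) with hs
  have hslen : s.length = b - a := by
    rw [hs, List.length_take, List.length_drop]
    omega
  have hsget : ∀ k (hk : k < s.length), s[k] = l[a + k]'(by omega) := by
    intro k hk
    simp only [hs]
    rw [List.getElem_take, List.getElem_drop]
  have htake : ∀ k, k ≤ b - a → wp Γ (l.take (a + k)) = wp Γ (l.take a) * wp Γ (s.take k) := by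
    intro k hk
    rw [← wp_append]
    congr 1
    rw [hs, List.take_take, min_eq_left hk, ← List.take_add]
  have hsw : ∀ k (hk : k < s.length), wall (Γ := Γ) l (a + k) (by omega) =
      wp Γ (l.take a) * wall (Γ := Γ) s k hk * (wp Γ (l.take a))⁻¹ := by
    intro k hk
    unfold wall
    rw [htake k (by omega), hsget k hk]
    group
  have hsred : Red Γ s := by
    refine red_of_nodup ?_
    intro i j hi hj hij hh
    have h1 := hmin (a + i) (a + j) (by omega) (by omega) (by omega)
      (by rw [hsw i hi, hsw j hj, hh])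
    omega
  -- write `s = l[a] :: s'`
  obtain ⟨x, s', hxs⟩ : ∃ x s', s = x :: s' := by
    cases hh : s with
    | nil => rw [hh] at hslen; simp at hslen; omega
    | cons x s' => exact ⟨x, s', rfl⟩
  have hx : x = l[a] := by
    have := hsget 0 (by omega)
    simp only [hxs, List.getElem_cons_zero] at this
    simpa using this
  rw [hxs] at hsred
  have hb' : wp Γ (l.take b) = wp Γ (l.take a) * (gen Γ x * wp Γ s') := by
    have := htake (b - a) le_rfl
    rw [show a + (b - a) = b from by omega] at this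
    rw [this, ← wp_cons, ← hxs, List.take_of_length_le (l := s) (by omega)]
  have hcomm : gen Γ x * wp Γ s' = wp Γ s' * gen Γ l[b] := by
    unfold wall at hw
    rw [hb', ← hx] at hw
    have h1 : gen Γ x = (gen Γ x * wp Γ s') * gen Γ l[b] * (gen Γ x * wp Γ s')⁻¹ := by
      calc gen Γ x = (wp Γ (l.take a))⁻¹ * (wp Γ (l.take a) * gen Γ x * (wp Γ (l.take a))⁻¹) *
            wp Γ (l.take a) := by group
        _ = (gen Γ x * wp Γ s') * gen Γ l[b] * (gen Γ x * wp Γ s')⁻¹ := by rw [hw]; group
    have h2 : gen Γ x * (gen Γ x * wp Γ s') = gen Γ x * wp Γ s' * gen Γ l[b] := by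
      rw [eq_mul_inv_iff_mul_eq] at h1
      exact h1
    rw [mul_assoc] at h2
    exact mul_left_cancel h2
  have hN : N (wp Γ s') (gen Γ x) = 0 := by
    have h1 := hsred.N_head
    rw [wp_cons, N_gen_mul_self] at h1
    rcases z2_cases (N (wp Γ s') (gen Γ x)) with h | h
    · exact h
    · rw [h] at h1
      exact absurd h1 (by decide)
  obtain ⟨h5, h6⟩ := carrier_word hsred.tail hcomm hN
  refine ⟨by rw [← hx]; exact h5, ?_⟩
  intro c hc hac hcb
  rw [← hx]
  refine h6 _ ?_
  have h7 : l[c] = s[c - a]'(by omega) := by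
    rw [hsget (c - a) (by omega)]
    congr 1
    omega
  rw [h7]
  have h8 : s[c - a]'(by omega) = (x :: s')[c - a]'(by rw [← hxs]; omega) := by
    simp only [hxs]
  rw [h8, List.getElem_cons]
  rw [dif_neg (by omega)]
  exact List.getElem_mem _

end Pool.Agent.Helper93.RC
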