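import Pool.Agent.Helper93.RC.Walls3

/-!
# The Cayley graph of a right-angled Coxeter group as a graph with walls
-/

namespace Pool.Agent.Helper93.RC

open scoped Classical

variable {V : Type*} {Γ : SimpleGraph V}

theorem gen_ne_one (v : V) : gen Γ v ≠ 1 := by
  intro h
  have h1 := N_gen (Γ := Γ) v (gen Γ v)
  rw [if_pos rfl, h, N_one] at h1
  exact absurd h1 (by decide)

theorem cay_adj {x y : RACG Γ} : (cay Γ).Adj x y ↔ ∃ v, y = x * gen Γ v := by
  unfold cay cayley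
  rw [SimpleGraph.fromRel_adj]
  constructor
  · rintro ⟨_, ⟨s, ⟨v, rfl⟩, h⟩ | ⟨s, ⟨v, rfl⟩, h⟩⟩
    · exact ⟨v, h⟩
    · refine ⟨v, ?_⟩
      rw [h, mul_assoc, gen_sq, mul_one]
  · rintro ⟨v, rfl⟩
    refine ⟨?_, Or.inl ⟨_, ⟨v, rfl⟩, rfl⟩⟩
    intro h
    exact gen_ne_one (Γ := Γ) v (left_eq_mul.1 h)

theorem exists_walk (x : RACG Γ) (l : List V) :
    ∃ w : (cay Γ).Walk x (x * wp Γ l), w.length = l.length := by
  induction l generalizing x with
  | nil => 
    refine ⟨(SimpleGraph.Walk.nil : (cay Γ).Walk x x).copy rfl (by simp), ?_⟩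
    rw [SimpleGraph.Walk.length_copy]
    rfl
  | cons v l ih =>
    obtain ⟨w, hw⟩ := ih (x * gen Γ v)
    refine ⟨(SimpleGraph.Walk.cons (cay_adj.2 ⟨v, rfl⟩) w).copy rfl ?_, ?_⟩
    · rw [wp_cons, mul_assoc]
    · simp [hw]

theorem len_gen_mul_le (v : V) (g : RACG Γ) : len (gen Γ v * g) ≤ len g + 1 := by
  obtain ⟨l, rfl, hl⟩ := exists_red g
  have := len_le (Γ := Γ) (v :: l)
  rw [wp_cons, List.length_cons] at this
  rw [red_iff_len.1 hl]
  exact this

theorem len_le_walk {x y : RACG Γ} (w : (cay Γ).Walk x y) : len (x⁻¹ * y) ≤ w.length := by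
  induction w with
  | nil => simp [len_one]
  | @cons u v w h p ih =>
    obtain ⟨c, hc⟩ := cay_adj.1 h
    rw [SimpleGraph.Walk.length_cons]
    have : u⁻¹ * w = gen Γ c * (v⁻¹ * w) := by
      rw [hc, mul_inv_rev, gen_inv]
      calc u⁻¹ * w = 1 * (u⁻¹ * w) := by rw [one_mul]
        _ = gen Γ c * gen Γ c * (u⁻¹ * w) := by rw [gen_sq]
        _ = _ := by group
    rw [this]
    exact (len_gen_mul_le c _).trans (by omega)

theorem cay_reachable (x y : RACG Γ) : (cay Γ).Reachable x y := by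
  obtain ⟨l, hl⟩ := exists_wp (x⁻¹ * y)
  obtain ⟨w, _⟩ := exists_walk x l
  rw [hl, mul_inv_cancel_left] at w
  exact ⟨w⟩

theorem cay_connected : (cay Γ).Connected :=
  { preconnected := cay_reachable
    nonempty := ⟨1⟩ }

theorem cay_dist (x y : RACG Γ) : (cay Γ).dist x y = len (x⁻¹ * y) := by
  apply le_antisymm
  · obtain ⟨l, hl, hr⟩ := exists_red (x⁻¹ * y)
    obtain ⟨w, hw⟩ := exists_walk x l
    have h := SimpleGraph.dist_le w
    rw [hw, hl, mul_inv_cancel_left, ← red_iff_len.1 hr, hl] at h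
    exact h
  · obtain ⟨w, hw⟩ := (cay_reachable x y).exists_walk_length_eq_dist
    rw [← hw]
    exact len_le_walk w

/-- walls -/
abbrev Wl (Γ : SimpleGraph V) : Type _ := {t : RACG Γ // IsRef t}

noncomputable def sd (h : Wl Γ) (x : RACG Γ) : Bool := decide (N x h.1 = 1)

theorem sd_ne_iff (h : Wl Γ) (x y : RACG Γ) :
    sd h x ≠ sd h y ↔ N (x⁻¹ * y) (x⁻¹ * h.1 * x) = 1 := by
  rw [N_rel]
  unfold sd
  rcases z2_cases (N x h.1) with h1 | h1 <;> rcases z2_cases (N y h.1) with h2 | h2 <;>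
    rw [h1, h2] <;> decide

theorem sep_set (x y : RACG Γ) :
    (fun h : Wl Γ => x⁻¹ * h.1 * x) '' {h : Wl Γ | sd h x ≠ sd h y} =
      {t : RACG Γ | N (x⁻¹ * y) t = 1} := by
  ext t
  constructor
  · rintro ⟨h, hh, rfl⟩
    exact (sd_ne_iff h x y).1 hh
  · intro ht
    have hr : IsRef t := by
      by_contra hcon
      change N (x⁻¹ * y) t = 1 at ht
      rw [N_eq_zero hcon] at ht
      exact absurd ht (by decide)
    refine ⟨⟨x * t * x⁻¹, hr.conj x⟩, (sd_ne_iff _ x y).2 ?_, ?_⟩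
    · simp only
      rw [show x⁻¹ * (x * t * x⁻¹) * x = t from by group]
      exact ht
    · show x⁻¹ * (x * t * x⁻¹) * x = t
      group

theorem conj_inj (x : RACG Γ) : Function.Injective (fun h : Wl Γ => x⁻¹ * h.1 * x) := by
  intro h k e
  apply Subtype.ext
  have : x⁻¹ * h.1 * x = x⁻¹ * k.1 * x := e
  exact mul_left_cancel (mul_right_cancel this)

theorem sep_finite (x y : RACG Γ) : {h : Wl Γ | sd h x ≠ sd h y}.Finite := by
  have h := supp_finite (x⁻¹ * y)
  rw [← sep_set x y] at h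
  exact Set.Finite.of_finite_image h (conj_inj x).injOn

theorem sep_ncard (x y : RACG Γ) : {h : Wl Γ | sd h x ≠ sd h y}.ncard = len (x⁻¹ * y) := by
  rw [len, ← sep_set x y, Set.ncard_image_of_injective _ (conj_inj x)]

/-- an edge is crossed exactly by its wall -/
theorem sd_edge (h : Wl Γ) (x : RACG Γ) (v : V) :
    sd h x ≠ sd h (x * gen Γ v) ↔ h.1 = x * gen Γ v * x⁻¹ := by
  rw [sd_ne_iff, inv_mul_cancel_left, N_gen]
  constructor
  · intro hh
    by_cases h2 : x⁻¹ * h.1 * x = gen Γ v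
    · rw [← h2]; group
    · rw [if_neg h2] at hh
      exact absurd hh (by decide)
  · intro hh
    rw [if_pos]
    rw [hh]
    group

theorem sd_ref_mul (h : Wl Γ) (x : RACG Γ) : sd h (h.1 * x) ≠ sd h x := by
  unfold sd
  rw [N_ref_mul h.2]
  rcases z2_cases (N x h.1) with h1 | h1 <;> rw [h1] <;> decide

/-- if `x` and `y` are adjacent to the wall `h`, on the same side, then all the letters of
`x⁻¹ y` are adjacent to the type of `h`. -/
theorem carrier_same {h : Wl Γ} {x y : RACG Γ} {u v : V} (hx : h.1 = x * gen Γ u * x⁻¹)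
    (hy : h.1 = y * gen Γ v * y⁻¹) (hs : sd h x = sd h y) :
    u = v ∧ ∃ l, Red Γ l ∧ wp Γ l = x⁻¹ * y ∧ ∀ c ∈ l, Γ.Adj u c := by
  obtain ⟨l, hl, hr⟩ := exists_red (x⁻¹ * y)
  have h1 : gen Γ u * wp Γ l = wp Γ l * gen Γ v := by
    rw [hl]
    have e : x * gen Γ u * x⁻¹ = y * gen Γ v * y⁻¹ := hx.symm.trans hy
    calc gen Γ u * (x⁻¹ * y) = x⁻¹ * (x * gen Γ u * x⁻¹) * y := by group
      _ = x⁻¹ * (y * gen Γ v * y⁻¹) * y := by rw [e]
      _ = _ := by group
  have h2 : N (wp Γ l) (gen Γ u) = 0 := by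
    rw [hl]
    have e : gen Γ u = x⁻¹ * h.1 * x := by rw [hx]; group
    rw [e]
    rcases z2_cases (N (x⁻¹ * y) (x⁻¹ * h.1 * x)) with h3 | h3
    · exact h3
    · exact absurd hs ((sd_ne_iff h x y).2 h3)
  exact ⟨(carrier_word hr h1 h2).1, l, hr, hl, (carrier_word hr h1 h2).2⟩

/-- crossing -/
def Crs (h k : Wl Γ) : Prop := h ≠ k ∧ h.1 * k.1 = k.1 * h.1

theorem carrier_cross {h k : Wl Γ} {x y : RACG Γ} {u v : V} (hx : h.1 = x * gen Γ u * x⁻¹)
    (hy : h.1 = y * gen Γ v * y⁻¹) (hk : k ≠ h) (hsep : sd k x ≠ sd k y) : Crs h k := by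
  -- reduce to the same side
  have key : ∀ x' : RACG Γ, h.1 = x' * gen Γ u * x'⁻¹ → sd h x' = sd h y → sd k x' ≠ sd k y →
      h.1 * k.1 = k.1 * h.1 := by
    intro x' hx' hs hsep'
    obtain ⟨_, l, hr, hl, hadj⟩ := carrier_same hx' hy hs
    rw [sd_ne_iff, ← hl] at hsep'
    obtain ⟨j, hj, e⟩ := (hr.N_iff' _).1 hsep'
    have h1 : gen Γ u * wall l j hj = wall l j hj * gen Γ u := by
      unfold wall
      have ha : gen Γ u * wp Γ (l.take j) = wp Γ (l.take j) * gen Γ u :=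
        gen_comm_wp (fun c hc => Or.inl (hadj c (List.mem_of_mem_take hc)))
      have hb : gen Γ u * gen Γ l[j] = gen Γ l[j] * gen Γ u :=
        gen_comm Γ (hadj _ (List.getElem_mem hj))
      have hc : gen Γ u * (wp Γ (l.take j))⁻¹ = (wp Γ (l.take j))⁻¹ * gen Γ u := by
        rw [eq_inv_mul_iff_mul_eq, ← mul_assoc, ← ha, mul_inv_cancel_right]
      calc gen Γ u * (wp Γ (l.take j) * gen Γ l[j] * (wp Γ (l.take j))⁻¹)
          = (gen Γ u * wp Γ (l.take j)) * gen Γ l[j] * (wp Γ (l.take j))⁻¹ := by group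
        _ = wp Γ (l.take j) * (gen Γ u * gen Γ l[j]) * (wp Γ (l.take j))⁻¹ := by rw [ha]; group
        _ = wp Γ (l.take j) * gen Γ l[j] * (gen Γ u * (wp Γ (l.take j))⁻¹) := by rw [hb]; group
        _ = _ := by rw [hc]; group
    have h2 : k.1 = x' * wall l j hj * x'⁻¹ := by rw [← e]; group
    rw [hx', h2]
    calc x' * gen Γ u * x'⁻¹ * (x' * wall l j hj * x'⁻¹) = x' * (gen Γ u * wall l j hj) * x'⁻¹ := by
          group
      _ = x' * (wall l j hj * gen Γ u) * x'⁻¹ := by rw [h1]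
      _ = _ := by group
  refine ⟨Ne.symm hk, ?_⟩
  by_cases hs : sd h x = sd h y
  · exact key x hx hs hsep
  · -- replace `x` by `x * gen u`
    have e1 : h.1 = (x * gen Γ u) * gen Γ u * (x * gen Γ u)⁻¹ := by
      rw [hx]; group
    have e2 : sd h (x * gen Γ u) = sd h y := by
      have := (sd_edge h x u).2 hx
      revert this hs
      cases sd h x <;> cases sd h y <;> cases sd h (x * gen Γ u) <;> simp
    have e3 : sd k (x * gen Γ u) = sd k x := by
      by_contra hcon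
      have h5 := (sd_edge k x u).1 (Ne.symm hcon)
      exact hk (Subtype.ext (h5.trans hx.symm))
    exact key _ e1 e2 (by rw [e3]; exact hsep)

theorem Crs.symm {h k : Wl Γ} (hc : Crs h k) : Crs k h := ⟨hc.1.symm, hc.2.symm⟩

/-- The Cayley graph with its walls. -/
noncomputable def racgW (Γ : SimpleGraph V) : WallStr (RACG Γ) (Wl Γ) where
  G := cay Γ
  side := sd
  cr := Crs
  conn := cay_connected
  cr_symm := fun _ _ h => h.symm
  fin := sep_finite
  dist_eq := fun x y => by rw [cay_dist, sep_ncard]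
  carrier := by
    intro h k x x' y y' hxx' hx hyy' hy hk hsep
    obtain ⟨u, rfl⟩ := cay_adj.1 hxx'
    obtain ⟨v, rfl⟩ := cay_adj.1 hyy'
    exact carrier_cross ((sd_edge h x u).1 hx) ((sd_edge h y v).1 hy) hk hsep

/-- crossing walls preserve each other's sides -/
theorem sd_mul_of_cross {h k : Wl Γ} (hc : Crs h k) (x : RACG Γ) : sd k (h.1 * x) = sd k x := by
  have h1 : N h.1 k.1 = 0 := by
    obtain ⟨g, v, e⟩ := h.2
    have h2 : N h.1 k.1 = N g k.1 + N (gen Γ v * g⁻¹) (g⁻¹ * k.1 * g) := by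
      rw [e, mul_assoc, N_mul]
    rw [h2, N_mul, N_inv, gen_inv]
    have h3 : g * (gen Γ v * (g⁻¹ * k.1 * g) * gen Γ v) * g⁻¹ = k.1 := by
      calc g * (gen Γ v * (g⁻¹ * k.1 * g) * gen Γ v) * g⁻¹ =
            (g * gen Γ v * g⁻¹) * k.1 * (g * gen Γ v * g⁻¹) := by group
        _ = h.1 * k.1 * h.1 := by rw [← e]
        _ = k.1 := by rw [hc.2, mul_assoc, h.2.mul_self, mul_one]
    rw [h3, N_gen, if_neg, zero_add, z2_add_self]
    intro hh
    apply hc.1
    apply Subtype.ext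
    rw [e, ← hh]
    group
  unfold sd
  rw [N_mul, h1, zero_add, h.2.inv, hc.2, mul_assoc, h.2.mul_self, mul_one]

/-- crossing walls have adjacent types -/
theorem cross_adj {h k : Wl Γ} {g g' : RACG Γ} {u v : V} (hc : Crs h k)
    (hu : h.1 = g * gen Γ u * g⁻¹) (hv : k.1 = g' * gen Γ v * g'⁻¹) : Γ.Adj u v := by
  -- the vertices `g'` and `h g'` are adjacent to `k`, on the same side, separated by `h`
  have h1 : k.1 = (h.1 * g') * gen Γ v * (h.1 * g')⁻¹ := by
    rw [mul_inv_rev, h.2.inv]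
    calc k.1 = (h.1 * h.1) * k.1 := by rw [h.2.mul_self, one_mul]
      _ = h.1 * (k.1 * h.1) := by rw [mul_assoc, hc.2]
      _ = _ := by rw [hv]; group
  obtain ⟨_, l, hr, hl, hadj⟩ := carrier_same (h := k) (x := g') (y := h.1 * g') hv h1
    (sd_mul_of_cross hc g').symm
  have h2 : sd h g' ≠ sd h (h.1 * g') := (sd_ref_mul h g').symm
  rw [sd_ne_iff, ← hl] at h2
  obtain ⟨j, hj, e⟩ := (hr.N_iff' _).1 h2
  have h3 : u = l[j] := by
    refine type_unique (g := g'⁻¹ * g) (h := wp Γ (l.take j)) ?_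
    rw [show wp Γ (l.take j) * gen Γ l[j] * (wp Γ (l.take j))⁻¹ = wall l j hj from rfl, ← e, hu]
    group
  rw [h3]
  exact (hadj _ (List.getElem_mem hj)).symm

end Pool.Agent.Helper93.RC
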